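import Mathlib
import Pool.Agent.Y4.G.Cas

/-!
# Irreducible Lie algebras of matrices with a projector

The part of degree zero acts irreducibly on the range of the projector.
-/

set_option linter.unusedSectionVars false

namespace Pool.Agent.K9h17.L

open Matrix Module
open Pool.Agent.Y4.G (exists_eig_range)
open Pool.Agent.Y4.G.Lie (pos mem_pos)

variable {B : Type*} [Fintype B] [DecidableEq B]

/-- A Lie algebra of matrices in the corner of `P + Q` which acts irreducibly on this corner and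
contains the projector `P`. -/
structure LieI (G : Submodule ℂ (Matrix B B ℂ)) (P Q : Matrix B B ℂ) : Prop where
  br : ∀ X ∈ G, ∀ Y ∈ G, X * Y - Y * X ∈ G
  PP : P * P = P
  QQ : Q * Q = Q
  PQ : P * Q = 0
  QP : Q * P = 0
  mP : P ∈ G
  lel : ∀ X ∈ G, (P + Q) * X = X
  ler : ∀ X ∈ G, X * (P + Q) = X
  irr : ∀ U : Submodule ℂ (B → ℂ), (∀ u ∈ U, (P + Q) *ᵥ u = u) →
    (∀ X ∈ G, ∀ u ∈ U, X *ᵥ u ∈ U) → U = ⊥ ∨ ∀ u, (P + Q) *ᵥ u = u → u ∈ U

theorem mat_ext {M N : Matrix B B ℂ} (h : ∀ w, M *ᵥ w = N *ᵥ w) : M = N := by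
  ext i j
  have h5 := congrFun (h (Pi.single j 1)) i
  rwa [mulVec_single_one, mulVec_single_one] at h5

namespace LieI

variable {G : Submodule ℂ (Matrix B B ℂ)} {P Q : Matrix B B ℂ} (H : LieI G P Q)
include H

theorem split {X : Matrix B B ℂ} (hX : X ∈ G) :
    X = P * X * Q + Q * X * P + (P * X * P + Q * X * Q) := by
  nth_rewrite 1 [← H.ler X hX, ← H.lel X hX]
  noncomm_ring

theorem PX {X : Matrix B B ℂ} (hX : X ∈ G) : P * X = P * X * P + P * X * Q := by
  nth_rewrite 1 [← H.ler X hX]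
  noncomm_ring

theorem XP {X : Matrix B B ℂ} (hX : X ∈ G) : X * P = P * X * P + Q * X * P := by
  nth_rewrite 1 [← H.lel X hX]
  noncomm_ring

theorem gr1 {X : Matrix B B ℂ} (hX : X ∈ G) : P * X * Q - Q * X * P ∈ G := by
  have h1 := H.br _ H.mP _ hX
  rw [H.PX hX, H.XP hX] at h1
  have h2 : P * X * P + P * X * Q - (P * X * P + Q * X * P) = P * X * Q - Q * X * P := by abel
  rwa [h2] at h1

theorem gr2 {X : Matrix B B ℂ} (hX : X ∈ G) : P * X * Q + Q * X * P ∈ G := by
  have h1 := H.gr1 (H.gr1 hX)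
  have h2 : P * (P * X * Q - Q * X * P) * Q - Q * (P * X * Q - Q * X * P) * P =
      (P * P) * X * (Q * Q) - (P * Q) * X * (P * Q) - ((Q * P) * X * (Q * P) -
        (Q * Q) * X * (P * P)) := by noncomm_ring
  rw [h2, H.PP, H.QQ, H.PQ, H.QP] at h1
  have h3 : P * X * Q - 0 * X * 0 - (0 * X * 0 - Q * X * P) = P * X * Q + Q * X * P := by
    simp
  rwa [h3] at h1

theorem grP {X : Matrix B B ℂ} (hX : X ∈ G) : P * X * Q ∈ G := by
  have h1 := Submodule.smul_mem _ (2 : ℂ)⁻¹ (Submodule.add_mem _ (H.gr2 hX) (H.gr1 hX))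
  have h2 : P * X * Q + Q * X * P + (P * X * Q - Q * X * P) = (2 : ℂ) • (P * X * Q) := by
    rw [two_smul]
    abel
  rwa [h2, smul_smul, inv_mul_cancel₀ two_ne_zero, one_smul] at h1

theorem grQ {X : Matrix B B ℂ} (hX : X ∈ G) : Q * X * P ∈ G := by
  have h1 := Submodule.sub_mem _ (H.gr2 hX) (H.grP hX)
  rwa [add_sub_cancel_left] at h1

theorem gr0 {X : Matrix B B ℂ} (hX : X ∈ G) : P * X * P + Q * X * Q ∈ G := by
  have h1 := H.split hX
  have h2 : P * X * P + Q * X * Q = X - (P * X * Q + Q * X * P) := by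
    nth_rewrite 3 [h1]
    abel
  rw [h2]
  exact Submodule.sub_mem _ hX (Submodule.add_mem _ (H.grP hX) (H.grQ hX))

theorem gr0_comm (X : Matrix B B ℂ) :
    P * (P * X * P + Q * X * Q) = (P * X * P + Q * X * Q) * P := by
  have h1 : P * (P * X * P + Q * X * Q) = (P * P) * X * P + (P * Q) * X * Q := by noncomm_ring
  have h2 : (P * X * P + Q * X * Q) * P = P * X * (P * P) + Q * X * (Q * P) := by noncomm_ring
  rw [h1, h2, H.PP, H.PQ, H.QP]
  simp

theorem comm_Q {z : Matrix B B ℂ} (hz : z ∈ G) (hzP : P * z = z * P) : Q * z = z * Q := by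
  have h3 := H.lel z hz
  have h4 := H.ler z hz
  rw [add_mul] at h3
  rw [mul_add] at h4
  have h5 : Q * z = z - P * z := eq_sub_of_add_eq' h3
  have h6 : z * Q = z - z * P := eq_sub_of_add_eq' h4
  rw [h5, h6, hzP]

/-- The part of degree zero acts irreducibly on the range of `P`. -/
theorem levi {W : Submodule ℂ (B → ℂ)} (hW : ∀ u ∈ W, P *ᵥ u = u)
    (hst : ∀ z ∈ G, P * z = z * P → ∀ u ∈ W, z *ᵥ u ∈ W) :
    W = ⊥ ∨ ∀ u, P *ᵥ u = u → u ∈ W := by
  let U1 : Submodule ℂ (B → ℂ) :=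
    Submodule.span ℂ {w | ∃ y ∈ G, ∃ u ∈ W, Q * y = y ∧ y * P = y ∧ w = y *ᵥ u}
  have hU1Q : ∀ w ∈ U1, Q *ᵥ w = w := by
    intro w hw
    induction hw using Submodule.span_induction with
    | mem w hw =>
      obtain ⟨y, _, u, _, hy, _, rfl⟩ := hw
      rw [mulVec_mulVec, hy]
    | zero => exact mulVec_zero _
    | add x y _ _ hx hy => rw [mulVec_add, hx, hy]
    | smul r x _ hx => rw [mulVec_smul, hx]
  have hQP0 : ∀ u ∈ W, Q *ᵥ u = 0 := by
    intro u hu
    rw [← hW u hu, mulVec_mulVec, H.QP, zero_mulVec]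
  have hstab : ∀ X ∈ G, ∀ u ∈ W ⊔ U1, X *ᵥ u ∈ W ⊔ U1 := by
    intro X hX
    have hle : W ⊔ U1 ≤ (W ⊔ U1).comap (mulVecLin X) := by
      refine sup_le ?_ ?_
      · intro u hu
        rw [Submodule.mem_comap, mulVecLin_apply, H.split hX, add_mulVec, add_mulVec]
        refine Submodule.add_mem _ (Submodule.add_mem _ ?_ ?_) ?_
        · rw [← mulVec_mulVec, hQP0 u hu, mulVec_zero]
          exact Submodule.zero_mem _
        · refine Submodule.mem_sup_right (Submodule.subset_span ⟨_, H.grQ hX, u, hu, ?_, ?_, rfl⟩)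
          · rw [← mul_assoc, ← mul_assoc, H.QQ]
          · rw [mul_assoc _ P P, H.PP]
        · exact Submodule.mem_sup_left (hst _ (H.gr0 hX) (H.gr0_comm X) u hu)
      · refine Submodule.span_le.2 ?_
        rintro _ ⟨y, hy, u, hu, hy1, hy2, rfl⟩
        change X *ᵥ (y *ᵥ u) ∈ W ⊔ U1
        have hPy : P * y = 0 := by rw [← hy1, ← mul_assoc, H.PQ, zero_mul]
        have hyQ : y * Q = 0 := by rw [← hy2, mul_assoc, H.PQ, mul_zero]
        rw [H.split hX, add_mulVec, add_mulVec]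
        refine Submodule.add_mem _ (Submodule.add_mem _ ?_ ?_) ?_
        · -- the positive part
          refine Submodule.mem_sup_left ?_
          obtain ⟨x, hx⟩ : ∃ x, x = P * X * Q := ⟨_, rfl⟩
          have hxG : x ∈ G := by rw [hx]; exact H.grP hX
          have hPx : P * x = x := by rw [hx, ← mul_assoc, ← mul_assoc, H.PP]
          have hxP : x * P = 0 := by rw [hx, mul_assoc _ Q P, H.QP, mul_zero]
          have hxu : x *ᵥ u = 0 := by
            rw [← hW u hu, mulVec_mulVec, hxP, zero_mulVec]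
          rw [← hx]
          have h3 : x *ᵥ (y *ᵥ u) = (x * y - y * x) *ᵥ u := by
            rw [sub_mulVec, ← mulVec_mulVec, ← mulVec_mulVec, hxu, mulVec_zero, sub_zero]
          rw [h3]
          refine hst _ (H.br _ hxG _ hy) ?_ u hu
          have e1 : P * (x * y - y * x) = (P * x) * y - (P * y) * x := by noncomm_ring
          have e2 : (x * y - y * x) * P = x * (y * P) - y * (x * P) := by noncomm_ring
          rw [e1, e2, hPx, hPy, hy2, hxP, zero_mul, mul_zero]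
        · rw [mulVec_mulVec, mul_assoc, hPy, mul_zero, zero_mulVec]
          exact Submodule.zero_mem _
        · refine Submodule.mem_sup_right ?_
          obtain ⟨z, hz⟩ : ∃ z, z = P * X * P + Q * X * Q := ⟨_, rfl⟩
          have hzG : z ∈ G := by rw [hz]; exact H.gr0 hX
          have hzP : P * z = z * P := by rw [hz]; exact H.gr0_comm X
          have hzQ : Q * z = z * Q := H.comm_Q hzG hzP
          rw [← hz]
          have h3 : z *ᵥ (y *ᵥ u) = (z * y - y * z) *ᵥ u + y *ᵥ (z *ᵥ u) := by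
            rw [sub_mulVec, mulVec_mulVec, mulVec_mulVec]
            abel
          rw [h3]
          refine Submodule.add_mem _ ?_ ?_
          · refine Submodule.subset_span ⟨_, H.br _ hzG _ hy, u, hu, ?_, ?_, rfl⟩
            · rw [mul_sub, ← mul_assoc, ← mul_assoc, hzQ, hy1, mul_assoc, hy1]
            · rw [sub_mul, mul_assoc z, hy2, mul_assoc y, ← hzP, ← mul_assoc, hy2]
          · exact Submodule.subset_span ⟨_, hy, _, hst _ hzG hzP u hu, hy1, hy2, rfl⟩
    intro u hu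
    exact hle hu
  have hunit : ∀ u ∈ W ⊔ U1, (P + Q) *ᵥ u = u := by
    intro u hu
    obtain ⟨u0, hu0, u1, hu1, rfl⟩ := Submodule.mem_sup.1 hu
    have h3 : P *ᵥ u1 = 0 := by rw [← hU1Q u1 hu1, mulVec_mulVec, H.PQ, zero_mulVec]
    rw [add_mulVec, mulVec_add, mulVec_add, hU1Q u1 hu1, hQP0 u0 hu0, hW u0 hu0, h3,
      add_zero, zero_add]
  rcases H.irr (W ⊔ U1) hunit hstab with h3 | h3
  · left
    rw [eq_bot_iff, ← h3]
    exact le_sup_left
  · right
    intro u hu
    have h5 : (P + Q) *ᵥ u = u := by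
      rw [← hu, mulVec_mulVec, add_mul, H.PP, H.QP, add_zero]
    obtain ⟨u0, hu0, u1, hu1, h6⟩ := Submodule.mem_sup.1 (h3 _ h5)
    have h7 : P *ᵥ u1 = 0 := by rw [← hU1Q u1 hu1, mulVec_mulVec, H.PQ, zero_mulVec]
    have h8 : u = u0 := by
      have h9 := congrArg (fun z => P *ᵥ z) h6
      simp only [mulVec_add, h7, add_zero, hW u0 hu0, hu] at h9
      exact h9.symm
    rw [h8]
    exact hu0

/-- **Schur's lemma** for the positive part. -/
theorem schur {c : Matrix B B ℂ} (h1 : P * c = c) (h2 : c * P = c)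
    (hc : ∀ z ∈ G, P * z = z * P → c * z = z * c) : ∃ κ : ℂ, c = κ • P := by
  by_cases hP0 : P = 0
  · refine ⟨0, ?_⟩
    rw [← h1, hP0, zero_mul, smul_zero]
  obtain ⟨μ, v, ⟨v', hv'⟩, hv0, hcv⟩ := exists_eig_range (N := c) hP0 (by
    intro v _
    refine ⟨c *ᵥ v, ?_⟩
    rw [mulVecLin_apply, mulVec_mulVec, h1])
  rw [mulVecLin_apply] at hv'
  have hPv : P *ᵥ v = v := by rw [← hv', mulVec_mulVec, H.PP]
  let U0 : Submodule ℂ (B → ℂ) :=
    { carrier := {u | P *ᵥ u = u ∧ c *ᵥ u = μ • u}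
      zero_mem' := ⟨mulVec_zero _, by rw [mulVec_zero, smul_zero]⟩
      add_mem' := fun {x y} hx hy => ⟨by rw [mulVec_add, hx.1, hy.1],
        by rw [mulVec_add, hx.2, hy.2, smul_add]⟩
      smul_mem' := fun r x hx => ⟨by rw [mulVec_smul, hx.1],
        by rw [mulVec_smul, hx.2, smul_comm]⟩ }
  refine ⟨μ, ?_⟩
  rcases H.levi (W := U0) (fun u hu => hu.1) (fun z hz hzP u hu => by
    obtain ⟨h3, h4⟩ := hu
    refine ⟨?_, ?_⟩
    · rw [mulVec_mulVec, hzP, ← mulVec_mulVec, h3]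
    · rw [mulVec_mulVec, hc z hz hzP, ← mulVec_mulVec, h4, mulVec_smul]) with h3 | h3
  · exfalso
    have h4 : v ∈ U0 := ⟨hPv, hcv⟩
    rw [h3, Submodule.mem_bot] at h4
    exact hv0 h4
  · refine mat_ext fun w => ?_
    have h4 := (h3 (P *ᵥ w) (by rw [mulVec_mulVec, H.PP])).2
    rw [← h2, ← mulVec_mulVec, h4, smul_mulVec]

omit H in
/-- The corner of the part of degree zero. -/
def cor (G : Submodule ℂ (Matrix B B ℂ)) (P : Matrix B B ℂ) : Submodule ℂ (Matrix B B ℂ) where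
  carrier := {w | ∃ z ∈ G, P * z = z * P ∧ w = P * z}
  zero_mem' := ⟨0, Submodule.zero_mem _, by rw [mul_zero, zero_mul], by rw [mul_zero]⟩
  add_mem' := by
    rintro _ _ ⟨z, hz, h1, rfl⟩ ⟨z', hz', h1', rfl⟩
    exact ⟨z + z', Submodule.add_mem _ hz hz', by rw [mul_add, add_mul, h1, h1'],
      (mul_add _ _ _).symm⟩
  smul_mem' := by
    rintro c _ ⟨z, hz, h1, rfl⟩
    exact ⟨c • z, Submodule.smul_mem _ _ hz, by rw [mul_smul_comm, smul_mul_assoc, h1],
      (mul_smul_comm _ _ _).symm⟩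

omit H in
theorem mem_cor {w : Matrix B B ℂ} : w ∈ cor G P ↔ ∃ z ∈ G, P * z = z * P ∧ w = P * z := Iff.rfl

/-- The corner of the part of degree zero, with a projector in it. -/
theorem cor_lieI {p : Matrix B B ℂ} (hp : p * p = p) (hPp : P * p = p) (hpP : p * P = p)
    (hm : ∃ z ∈ G, P * z = z * P ∧ p = P * z) : LieI (cor G P) p (P - p) where
  br := by
    rintro _ ⟨z, hz, h1, rfl⟩ _ ⟨z', hz', h1', rfl⟩
    refine ⟨z * z' - z' * z, H.br _ hz _ hz', ?_, ?_⟩
    · rw [mul_sub, sub_mul, ← mul_assoc, h1, mul_assoc, h1', ← mul_assoc, ← mul_assoc P z', h1',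
        mul_assoc z' P, h1, ← mul_assoc]
    · rw [mul_sub]
      have e1 : P * z * (P * z') = P * (z * z') := by
        rw [h1, mul_assoc z P, ← mul_assoc P P, H.PP, ← mul_assoc, ← h1, mul_assoc]
      have e2 : P * z' * (P * z) = P * (z' * z) := by
        rw [h1', mul_assoc z' P, ← mul_assoc P P, H.PP, ← mul_assoc, ← h1', mul_assoc]
      rw [e1, e2]
  PP := hp
  QQ := by
    rw [sub_mul, mul_sub, mul_sub, H.PP, hp, hPp, hpP]
    abel
  PQ := by rw [mul_sub, hpP, hp, sub_self]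
  QP := by rw [sub_mul, hPp, hp, sub_self]
  mP := hm
  lel := by
    rintro _ ⟨z, hz, h1, rfl⟩
    rw [add_sub_cancel, ← mul_assoc, H.PP]
  ler := by
    rintro _ ⟨z, hz, h1, rfl⟩
    rw [add_sub_cancel, h1, mul_assoc, H.PP]
  irr := by
    intro U hU hst
    rw [add_sub_cancel] at hU ⊢
    refine H.levi hU fun z hz hzP u hu => ?_
    have h1 := hst (P * z) ⟨z, hz, hzP, rfl⟩ u hu
    rwa [hzP, ← mulVec_mulVec, hU u hu] at h1

end LieI

end Pool.Agent.K9h17.L
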