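import Mathlib
import Pool.Agent.N183.JP.Trp
import Pool.Agent.K9h17.L.Levi

/-!
# Two orthogonal idempotents in a Lie algebra with different multiplicities
-/

set_option linter.unusedSectionVars false

namespace Pool.Agent.K9h17.L

open Matrix Module
open Pool.Agent.Y4.G (trF trF_apply exists_dual)
open Pool.Agent.Y4.G.Lie (pos mem_pos)
open Pool.Agent.N183.JP

variable {B : Type*} [Fintype B] [DecidableEq B]

variable {G : Submodule ℂ (Matrix B B ℂ)} {P Q : Matrix B B ℂ} {a b : ℕ}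

/-- From the first structure to the second one. -/
theorem lieI_of (H : LieP G P Q a b) (hR : P + Q ∈ G) : LieI G P Q where
  br := H.br
  PP := H.PP
  QQ := H.QQ
  PQ := H.PQ
  QP := H.QP
  mP := by
    have h1 := Submodule.smul_mem _ (2 : ℂ)⁻¹ (Submodule.add_mem _ H.D hR)
    have h2 : P - Q + (P + Q) = (2 : ℂ) • P := by
      rw [two_smul]
      abel
    rwa [h2, smul_smul, inv_mul_cancel₀ two_ne_zero, one_smul] at h1
  lel := H.lel
  ler := H.ler
  irr := H.irr

/-- The part of degree zero. -/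
def G0 (G : Submodule ℂ (Matrix B B ℂ)) (P : Matrix B B ℂ) : Submodule ℂ (Matrix B B ℂ) where
  carrier := {z | z ∈ G ∧ P * z = z * P}
  zero_mem' := ⟨Submodule.zero_mem _, by rw [mul_zero, zero_mul]⟩
  add_mem' := by
    rintro z z' ⟨h1, h2⟩ ⟨h3, h4⟩
    exact ⟨Submodule.add_mem _ h1 h3, by rw [mul_add, add_mul, h2, h4]⟩
  smul_mem' := by
    rintro c z ⟨h1, h2⟩
    exact ⟨Submodule.smul_mem _ _ h1, by rw [mul_smul_comm, smul_mul_assoc, h2]⟩

theorem mem_G0 {z : Matrix B B ℂ} : z ∈ G0 G P ↔ z ∈ G ∧ P * z = z * P := Iff.rfl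

/-- The trace form is nondegenerate on the part of degree zero. -/
theorem nd0 (H : LieI G P Q) (hnd : ∀ z ∈ G, (∀ w ∈ G, trace (z * w) = 0) → z = 0)
    {z : Matrix B B ℂ} (hz : z ∈ G0 G P) (h : ∀ w ∈ G0 G P, trace (z * w) = 0) : z = 0 := by
  refine hnd z hz.1 fun w hw => ?_
  have hzQ := H.comm_Q hz.1 hz.2
  have h1 := h _ ⟨H.gr0 hw, H.gr0_comm w⟩
  have h2 : trace (z * (P * w * Q)) = 0 := by
    have e1 : z * (P * w * Q) = (z * P * w) * Q := by noncomm_ring
    rw [e1, trace_mul_comm, ← hz.2]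
    have e2 : Q * (P * z * w) = (Q * P) * z * w := by noncomm_ring
    rw [e2, H.QP, zero_mul, zero_mul, trace_zero]
  have h3 : trace (z * (Q * w * P)) = 0 := by
    have e1 : z * (Q * w * P) = (z * Q * w) * P := by noncomm_ring
    rw [e1, trace_mul_comm, ← hzQ]
    have e2 : P * (Q * z * w) = (P * Q) * z * w := by noncomm_ring
    rw [e2, H.PQ, zero_mul, zero_mul, trace_zero]
  rw [H.split hw, mul_add, mul_add, trace_add, trace_add, h1, h2, h3]
  simp

/-- The element which represents the trace of the product with `p`. -/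
theorem exists_rep (H : LieI G P Q) (hnd : ∀ z ∈ G, (∀ w ∈ G, trace (z * w) = 0) → z = 0)
    (p : Matrix B B ℂ) : ∃ E ∈ G0 G P, ∀ w ∈ G0 G P, trace (E * w) = trace (p * w) := by
  obtain ⟨n, b, y, hy, hyb, -⟩ := exists_dual (trF B) (G0 G P) (G0 G P)
    (fun x hx h => nd0 H hnd hx fun w hw => h w hw)
    (fun x hx h => nd0 H hnd hx fun w hw => by
      rw [trace_mul_comm]
      exact h w hw)
  refine ⟨∑ j, trace (p * (b j : Matrix B B ℂ)) • y j, Submodule.sum_mem _ fun j _ =>
    Submodule.smul_mem _ _ (hy j), fun w hw => ?_⟩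
  have h1 : w = ∑ j, b.repr ⟨w, hw⟩ j • (b j : Matrix B B ℂ) := by
    have h4 := congrArg Subtype.val (b.sum_repr ⟨w, hw⟩)
    refine h4.symm.trans ?_
    rw [Submodule.coe_sum]
    rfl
  have h2 : trace (p * w) = ∑ j, b.repr ⟨w, hw⟩ j * trace (p * (b j : Matrix B B ℂ)) := by
    nth_rewrite 1 [h1]
    rw [Finset.mul_sum, trace_sum]
    refine Finset.sum_congr rfl fun j _ => ?_
    rw [mul_smul_comm, trace_smul, smul_eq_mul]
  rw [h2, Finset.sum_mul, trace_sum]
  refine Finset.sum_congr rfl fun j _ => ?_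
  rw [smul_mul_assoc, trace_smul, smul_eq_mul, trace_mul_comm (y j)]
  have h3 := hyb j ⟨w, hw⟩
  change trace (w * y j) = _ at h3
  rw [h3, mul_comm]

/-- Central elements of the second part of degree zero are scalars on the four pieces. -/
theorem four (H : LieI G P Q) {p q E : Matrix B B ℂ} (pp : p * p = p) (qq : q * q = q)
    (Pp : P * p = p) (pP : p * P = p) (Qqh : Q * q = q) (qQ : q * Q = q) (hpq : p - q ∈ G)
    (hE : ∀ z ∈ G, P * z = z * P → p * z = z * p → q * z = z * q → E * z = z * E)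
    (hEP : P * E = E * P) :
    ∃ ε₁ ε₂ : ℂ, p * E = ε₁ • p ∧ (P - p) * E = ε₂ • (P - p) := by
  have Pq : P * q = 0 := by rw [← Qqh, ← mul_assoc, H.PQ, zero_mul]
  have qP : q * P = 0 := by rw [← qQ, mul_assoc, H.QP, mul_zero]
  have pq : p * q = 0 := by rw [← pP, mul_assoc, Pq, mul_zero]
  have qp : q * p = 0 := by rw [← qQ, mul_assoc, ← Pp, ← mul_assoc Q, H.QP, zero_mul, mul_zero]
  -- `E` commutes with `p`
  have hEp : p * E = E * p := by
    have h1 := hE (p - q) hpq (by rw [mul_sub, sub_mul, Pp, pP, Pq, qP])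
      (by rw [mul_sub, sub_mul, pq, qp]) (by rw [mul_sub, sub_mul, pq, qp])
    have h2 : P * (E * (p - q)) = P * ((p - q) * E) := by rw [h1]
    rw [← mul_assoc, ← mul_assoc, hEP, mul_assoc, mul_sub, mul_sub, Pp, Pq, mul_zero, sub_zero,
      sub_zero] at h2
    exact h2.symm
  -- correction of an element of degree zero
  have hcor : ∀ z ∈ G, P * z = z * P → p * z = z * p → E * (P * z) = (P * z) * E := by
    intro z hz hzP hzp
    have hpzq : p * z * q = 0 := by rw [hzp, mul_assoc, pq, mul_zero]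
    have hqzp : q * z * p = 0 := by rw [mul_assoc, ← hzp, ← mul_assoc, qp, zero_mul]
    have e1 : (p - q) * z - z * (p - q) = z * q - q * z := by
      rw [sub_mul, mul_sub, hzp]
      abel
    have h1 := H.br _ hpq _ hz
    rw [e1] at h1
    have h2 := H.br _ hpq _ h1
    have e2 : (p - q) * (z * q - q * z) - (z * q - q * z) * (p - q) =
        (p * z * q - (p * q) * z - q * z * q + (q * q) * z) - (z * (q * p) - z * (q * q) -
          q * z * p + q * z * q) := by noncomm_ring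
    rw [e2, hpzq, pq, qq, qp, hqzp, zero_mul, mul_zero] at h2
    obtain ⟨z0, hz0⟩ : ∃ z0, z0 = z - ((0 - 0 - q * z * q + q * z) - (0 - z * q - 0 + q * z * q)) :=
      ⟨_, rfl⟩
    have hz0G : z0 ∈ G := by rw [hz0]; exact Submodule.sub_mem _ hz h2
    have hz0' : z0 = z - q * z - z * q + 2 • (q * z * q) := by
      rw [hz0]
      abel
    have f1 : P * z0 = P * z := by
      rw [hz0']
      have e3 : P * (z - q * z - z * q + 2 • (q * z * q)) =
          P * z - (P * q) * z - P * z * q + 2 • ((P * q) * z * q) := by noncomm_ring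
      rw [e3, Pq, hzP, mul_assoc z P q, Pq]
      simp
    have f2 : z0 * P = P * z := by
      rw [hz0']
      have e3 : (z - q * z - z * q + 2 • (q * z * q)) * P =
          z * P - q * (z * P) - z * (q * P) + 2 • (q * z * (q * P)) := by noncomm_ring
      rw [e3, qP, ← hzP, ← mul_assoc q P, qP]
      simp
    have f3 : p * z0 = z0 * p := by
      rw [hz0']
      have e3 : p * (z - q * z - z * q + 2 • (q * z * q)) =
          p * z - (p * q) * z - p * z * q + 2 • ((p * q) * z * q) := by noncomm_ring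
      have e4 : (z - q * z - z * q + 2 • (q * z * q)) * p =
          z * p - q * z * p - z * (q * p) + 2 • (q * z * (q * p)) := by noncomm_ring
      rw [e3, e4, pq, hpzq, qp, hqzp, hzp]
      simp
    have f4 : q * z0 = z0 * q := by
      rw [hz0']
      have e3 : q * (z - q * z - z * q + 2 • (q * z * q)) =
          q * z - (q * q) * z - q * z * q + 2 • ((q * q) * z * q) := by noncomm_ring
      have e4 : (z - q * z - z * q + 2 • (q * z * q)) * q =
          z * q - q * z * q - z * (q * q) + 2 • (q * z * (q * q)) := by noncomm_ring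
      rw [e3, e4, qq]
      abel
    have h5 := hE z0 hz0G (by rw [f1, f2]) f3 f4
    calc E * (P * z) = E * (z0 * P) := by rw [f2]
    _ = (E * z0) * P := by rw [mul_assoc]
    _ = z0 * (E * P) := by rw [h5, mul_assoc]
    _ = (z0 * P) * E := by rw [← hEP, mul_assoc]
    _ = P * z * E := by rw [f2]
  have hmp : ∃ z ∈ G, P * z = z * P ∧ p = P * z :=
    ⟨p - q, hpq, by rw [mul_sub, sub_mul, Pp, pP, Pq, qP], by rw [mul_sub, Pp, Pq, sub_zero]⟩
  have hmp' : ∃ z ∈ G, P * z = z * P ∧ P - p = P * z :=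
    ⟨P - (p - q), Submodule.sub_mem _ H.mP hpq, by
      rw [mul_sub, sub_mul, mul_sub, sub_mul, Pp, pP, Pq, qP], by
      rw [mul_sub, mul_sub, H.PP, Pp, Pq, sub_zero]⟩
  have C1 := H.cor_lieI pp Pp pP hmp
  have C2 := H.cor_lieI (p := P - p) C1.QQ (by rw [mul_sub, H.PP, Pp]) (by rw [sub_mul, H.PP, pP])
    hmp'
  obtain ⟨ε₁, h1⟩ := C1.schur (c := p * E) (by rw [← mul_assoc, pp])
    (by rw [hEp, mul_assoc, pp]) (by
      rintro _ ⟨z, hz, hzP, rfl⟩ hzp
      have hzp' : p * z = z * p := by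
        have e1 : p * (P * z) = p * z := by rw [← mul_assoc, pP]
        have e2 : P * z * p = z * p := by rw [hzP, mul_assoc, Pp]
        rwa [e1, e2] at hzp
      rw [mul_assoc, hcor z hz hzP hzp', ← mul_assoc, hzp, mul_assoc])
  obtain ⟨ε₂, h2⟩ := C2.schur (c := (P - p) * E) (by rw [← mul_assoc, C1.QQ])
    (by
      have e1 : (P - p) * E = E * (P - p) := by rw [mul_sub, sub_mul, hEP, hEp]
      rw [e1, mul_assoc, C1.QQ]) (by
      rintro _ ⟨z, hz, hzP, rfl⟩ hzp
      have hzp' : p * z = z * p := by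
        have e1 : (P - p) * (P * z) = P * z - p * z := by
          rw [sub_mul, ← mul_assoc, H.PP, ← mul_assoc, pP]
        have e2 : P * z * (P - p) = P * z - z * p := by
          rw [hzP, mul_sub, mul_assoc, H.PP, mul_assoc, Pp]
        rw [e1, e2] at hzp
        exact sub_right_injective hzp
      rw [mul_assoc, hcor z hz hzP hzp', ← mul_assoc, hzp, mul_assoc])
  exact ⟨ε₁, ε₂, h1, h2⟩

/-- **Two orthogonal idempotents**: if the multiplicities are different, the Lie algebra contains the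
projector of the first one. -/
theorem p_mem (H : LieI G P Q) (hnd : ∀ z ∈ G, (∀ w ∈ G, trace (z * w) = 0) → z = 0)
    (hQ : Q ∈ G) (hP : trace P = a) (hQ' : trace Q = b) (hab : a ≠ b)
    {p q p' q' : Matrix B B ℂ} (pp : p * p = p) (qq : q * q = q)
    (Pp : P * p = p) (pP : p * P = p) (Qqh : Q * q = q) (qQ : q * Q = q) (hpq : p - q ∈ G)
    (htp : trace q = trace p) (htp0 : trace p ≠ 0)
    (Pp' : P * p' = p') (pP' : p' * P = p') (Qqh' : Q * q' = q') (qQ' : q' * Q = q')
    (hpq' : p' - q' ∈ G) (htp' : trace q' = trace p') (htp0' : trace p' ≠ 0)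
    (h1 : p * p' = 0) (h2 : q * q' = 0) : p ∈ G := by
  have Pq : P * q = 0 := by rw [← Qqh, ← mul_assoc, H.PQ, zero_mul]
  have qP : q * P = 0 := by rw [← qQ, mul_assoc, H.QP, mul_zero]
  have pq : p * q = 0 := by rw [← pP, mul_assoc, Pq, mul_zero]
  have qp : q * p = 0 := by rw [← qQ, mul_assoc, ← Pp, ← mul_assoc Q, H.QP, zero_mul, mul_zero]
  have Qp : Q * p = 0 := by rw [← Pp, ← mul_assoc, H.QP, zero_mul]
  have pQ : p * Q = 0 := by rw [← pP, mul_assoc, H.PQ, mul_zero]
  have Pq' : P * q' = 0 := by rw [← Qqh', ← mul_assoc, H.PQ, zero_mul]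
  have qP' : q' * P = 0 := by rw [← qQ', mul_assoc, H.QP, mul_zero]
  have Qp' : Q * p' = 0 := by rw [← Pp', ← mul_assoc, H.QP, zero_mul]
  have pq' : p * q' = 0 := by rw [← pP, mul_assoc, Pq', mul_zero]
  have qp' : q * p' = 0 := by rw [← qQ, mul_assoc, Qp', mul_zero]
  have HQ : LieI G Q P :=
    { br := H.br
      PP := H.QQ
      QQ := H.PP
      PQ := H.QP
      QP := H.PQ
      mP := hQ
      lel := by rw [add_comm]; exact H.lel
      ler := by rw [add_comm]; exact H.ler
      irr := by rw [add_comm Q P]; exact H.irr }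
  obtain ⟨E, ⟨hEG, hEP⟩, hE⟩ := exists_rep H hnd p
  have hEc : ∀ z ∈ G, P * z = z * P → p * z = z * p → q * z = z * q → E * z = z * E := by
    intro z hz hzP hzp _
    rw [← sub_eq_zero]
    have hm : E * z - z * E ∈ G0 G P := by
      refine ⟨H.br _ hEG _ hz, ?_⟩
      rw [mul_sub, sub_mul, ← mul_assoc, hEP, mul_assoc, hzP, ← mul_assoc, ← mul_assoc P z E, hzP,
        mul_assoc z P E, hEP, ← mul_assoc z E P]
    refine nd0 H hnd hm fun w hw => ?_
    have hw1 : z * w - w * z ∈ G0 G P := by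
      obtain ⟨hwG, hwP⟩ := hw
      refine ⟨H.br _ hz _ hwG, ?_⟩
      rw [mul_sub, sub_mul, ← mul_assoc, hzP, mul_assoc, hwP, ← mul_assoc, ← mul_assoc P w z, hwP,
        mul_assoc w P z, hzP, ← mul_assoc w z P]
    have e1 : trace ((E * z - z * E) * w) = trace (E * (z * w - w * z)) := by
      rw [sub_mul, trace_sub, mul_sub, trace_sub, mul_assoc, mul_assoc z E w,
        trace_mul_comm z (E * w), mul_assoc]
    rw [e1, hE _ hw1, mul_sub, trace_sub, ← mul_assoc, hzp, mul_assoc, trace_mul_comm z,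
      mul_assoc, sub_self]
  obtain ⟨ε₁, ε₂, f1, f2⟩ := four H pp qq Pp pP Qqh qQ hpq hEc hEP
  have hqp : q - p ∈ G := by
    have h3 := Submodule.neg_mem _ hpq
    rwa [neg_sub] at h3
  have hEQ := H.comm_Q hEG hEP
  obtain ⟨ε₃, ε₄, f3, f4⟩ := four HQ qq pp Qqh qQ Pp pP hqp
    (fun z hz hzQ hzq hzp => hEc z hz (HQ.comm_Q hz hzQ) hzp hzq) hEQ
  have hEe : E = ε₁ • p + ε₂ • (P - p) + (ε₃ • q + ε₄ • (Q - q)) := by
    rw [← f1, ← f2, ← f3, ← f4]
    nth_rewrite 1 [← H.lel E hEG]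
    noncomm_ring
  by_cases hc : (ε₁ - ε₂) + (ε₃ - ε₄) = 0
  · exfalso
    have hD : p - q ∈ G0 G P := ⟨hpq, by rw [mul_sub, sub_mul, Pp, pP, Pq, qP]⟩
    have hD' : p' - q' ∈ G0 G P := ⟨hpq', by rw [mul_sub, sub_mul, Pp', pP', Pq', qP']⟩
    have t1 := hE P ⟨H.mP, rfl⟩
    have t2 := hE Q ⟨hQ, by rw [H.PQ, H.QP]⟩
    have t3 := hE (p - q) hD
    have t4 := hE (p' - q') hD'
    have e1 : E * P = ε₁ • p + ε₂ • (P - p) := by
      rw [hEe, add_mul, add_mul, add_mul, smul_mul_assoc, smul_mul_assoc, smul_mul_assoc,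
        smul_mul_assoc, sub_mul, sub_mul, H.PP, pP, qP, H.QP]
      simp
    have e2 : E * Q = ε₃ • q + ε₄ • (Q - q) := by
      rw [hEe, add_mul, add_mul, add_mul, smul_mul_assoc, smul_mul_assoc, smul_mul_assoc,
        smul_mul_assoc, sub_mul, sub_mul, H.PQ, pQ, qQ, H.QQ]
      simp
    have e3 : E * (p - q) = ε₁ • p - ε₃ • q := by
      rw [hEe, add_mul, add_mul, add_mul, smul_mul_assoc, smul_mul_assoc, smul_mul_assoc,
        smul_mul_assoc, sub_mul, sub_mul, mul_sub, mul_sub, mul_sub, mul_sub, pp, pq, qp, qq, Pp,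
        Pq, Qp, Qqh]
      simp [sub_eq_add_neg]
    have e4 : E * (p' - q') = ε₂ • p' - ε₄ • q' := by
      rw [hEe, add_mul, add_mul, add_mul, smul_mul_assoc, smul_mul_assoc, smul_mul_assoc,
        smul_mul_assoc, sub_mul, sub_mul, mul_sub, mul_sub, mul_sub, mul_sub, h1, pq', qp', h2,
        Pp', Pq', Qp', Qqh']
      simp [sub_eq_add_neg]
    have g3 : p * (p - q) = p := by rw [mul_sub, pp, pq, sub_zero]
    have g4 : p * (p' - q') = 0 := by rw [mul_sub, h1, pq', sub_zero]
    rw [e1, pP, trace_add, trace_smul, trace_smul, trace_sub, hP, smul_eq_mul, smul_eq_mul] at t1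
    rw [e2, pQ, trace_add, trace_smul, trace_smul, trace_sub, hQ', htp, trace_zero, smul_eq_mul,
      smul_eq_mul] at t2
    rw [e3, g3, trace_sub, trace_smul, trace_smul, htp, smul_eq_mul, smul_eq_mul] at t3
    rw [e4, g4, trace_sub, trace_smul, trace_smul, htp', trace_zero, smul_eq_mul, smul_eq_mul,
      ← sub_mul] at t4
    have s1 : ε₂ = ε₄ := sub_eq_zero.1 ((mul_eq_zero.1 t4).resolve_right htp0')
    have s2 : ε₁ - ε₃ = 1 := by
      have s3 : (ε₁ - ε₃ - 1) * trace p = 0 := by linear_combination t3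
      exact sub_eq_zero.1 ((mul_eq_zero.1 s3).resolve_right htp0)
    have s3 : 2 * (ε₁ - ε₂) = 1 := by linear_combination s2 + hc - s1
    have s4 : 2 * (ε₂ * a) = trace p := by linear_combination 2 * t1 - s3 * trace p
    have s5 : 2 * (ε₂ * b) = trace p := by
      linear_combination 2 * t2 - 2 * hc * trace p + s3 * trace p + 2 * (b - trace p) * s1 +
        2 * s1 * trace p - 2 * s1 * trace p + 2 * s1 * trace p
    have s6 : ε₂ * ((a : ℂ) - b) = 0 := by linear_combination (1 / 2 : ℂ) * s4 - (1 / 2 : ℂ) * s5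
    rcases mul_eq_zero.1 s6 with s7 | s7
    · rw [s7, zero_mul, mul_zero] at s4
      exact htp0 s4.symm
    · exact hab (by exact_mod_cast sub_eq_zero.1 s7)
  · have h5 : E - ε₂ • P - ε₄ • Q + (ε₃ - ε₄) • (p - q) ∈ G :=
      Submodule.add_mem _ (Submodule.sub_mem _ (Submodule.sub_mem _ hEG
        (Submodule.smul_mem _ _ H.mP)) (Submodule.smul_mem _ _ hQ)) (Submodule.smul_mem _ _ hpq)
    have h6 : E - ε₂ • P - ε₄ • Q + (ε₃ - ε₄) • (p - q) = ((ε₁ - ε₂) + (ε₃ - ε₄)) • p := by
      rw [hEe]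
      module
    rw [h6] at h5
    have h7 := Submodule.smul_mem _ ((ε₁ - ε₂) + (ε₃ - ε₄))⁻¹ h5
    rwa [smul_smul, inv_mul_cancel₀ hc, one_smul] at h7

end Pool.Agent.K9h17.L
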