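import Mathlib
import Pool.Agent.K9h17.L.Two

/-!
# Lie algebras which contain the projector of a minimal element
-/

set_option linter.unusedSectionVars false

namespace Pool.Agent.K9h17.L

open Matrix Module
open Pool.Agent.Y4.G (trF trF_apply exists_dual trace_idemM finrank_eq_one_of)
open Pool.Agent.Y4.G.Lie (pos mem_pos)
open Pool.Agent.N183.JP

variable {B : Type*} [Fintype B] [DecidableEq B]

variable {G : Submodule ℂ (Matrix B B ℂ)} {P Q : Matrix B B ℂ} {a b : ℕ}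

/-- The elements of degree one and minus one act irreducibly. -/
def IrrXY (G : Submodule ℂ (Matrix B B ℂ)) (P Q : Matrix B B ℂ) : Prop :=
  ∀ U : Submodule ℂ (B → ℂ), (∀ u ∈ U, (P + Q) *ᵥ u = u) →
    (∀ x ∈ pos G P Q, ∀ u ∈ U, x *ᵥ u ∈ U) → (∀ y ∈ pos G Q P, ∀ u ∈ U, y *ᵥ u ∈ U) →
      U = ⊥ ∨ ∀ u, (P + Q) *ᵥ u = u → u ∈ U

theorem IrrXY.symm (h : IrrXY G P Q) : IrrXY G Q P := by
  intro U h1 h2 h3
  rw [add_comm] at h1 ⊢
  exact h U h1 h3 h2

/-- The products of elements of degree one and minus one act irreducibly on the range of `P`. -/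
theorem levi_xy (H : LieP G P Q a b) (h : IrrXY G P Q) {W : Submodule ℂ (B → ℂ)}
    (hW : ∀ u ∈ W, P *ᵥ u = u)
    (hst : ∀ x ∈ pos G P Q, ∀ y ∈ pos G Q P, ∀ u ∈ W, x *ᵥ (y *ᵥ u) ∈ W) :
    W = ⊥ ∨ ∀ u, P *ᵥ u = u → u ∈ W := by
  let U1 : Submodule ℂ (B → ℂ) :=
    Submodule.span ℂ {w | ∃ y ∈ pos G Q P, ∃ u ∈ W, w = y *ᵥ u}
  have hU1Q : ∀ w ∈ U1, Q *ᵥ w = w := by
    intro w hw
    induction hw using Submodule.span_induction with
    | mem w hw =>
      obtain ⟨y, hy, u, _, rfl⟩ := hw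
      rw [mulVec_mulVec, hy.2.1]
    | zero => exact mulVec_zero _
    | add x y _ _ hx hy => rw [mulVec_add, hx, hy]
    | smul r x _ hx => rw [mulVec_smul, hx]
  have hQP0 : ∀ u ∈ W, Q *ᵥ u = 0 := by
    intro u hu
    rw [← hW u hu, mulVec_mulVec, H.QP, zero_mulVec]
  have hunit : ∀ u ∈ W ⊔ U1, (P + Q) *ᵥ u = u := by
    intro u hu
    obtain ⟨u0, hu0, u1, hu1, rfl⟩ := Submodule.mem_sup.1 hu
    have h3 : P *ᵥ u1 = 0 := by rw [← hU1Q u1 hu1, mulVec_mulVec, H.PQ, zero_mulVec]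
    rw [add_mulVec, mulVec_add, mulVec_add, hU1Q u1 hu1, hQP0 u0 hu0, hW u0 hu0, h3,
      add_zero, zero_add]
  have hx : ∀ x ∈ pos G P Q, ∀ u ∈ W ⊔ U1, x *ᵥ u ∈ W ⊔ U1 := by
    intro x hx
    have hle : W ⊔ U1 ≤ (W ⊔ U1).comap (mulVecLin x) := by
      refine sup_le ?_ ?_
      · intro u hu
        rw [Submodule.mem_comap, mulVecLin_apply, ← hx.2.2, ← mulVec_mulVec, hQP0 u hu,
          mulVec_zero]
        exact Submodule.zero_mem _
      · refine Submodule.span_le.2 ?_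
        rintro _ ⟨y, hy, u, hu, rfl⟩
        exact Submodule.mem_sup_left (hst x hx y hy u hu)
    exact fun u hu => hle hu
  have hy : ∀ y ∈ pos G Q P, ∀ u ∈ W ⊔ U1, y *ᵥ u ∈ W ⊔ U1 := by
    intro y hy
    have hle : W ⊔ U1 ≤ (W ⊔ U1).comap (mulVecLin y) := by
      refine sup_le ?_ ?_
      · intro u hu
        exact Submodule.mem_sup_right (Submodule.subset_span ⟨y, hy, u, hu, rfl⟩)
      · intro u hu
        have h3 : P *ᵥ u = 0 := by rw [← hU1Q u hu, mulVec_mulVec, H.PQ, zero_mulVec]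
        rw [Submodule.mem_comap, mulVecLin_apply, ← hy.2.2, ← mulVec_mulVec, h3, mulVec_zero]
        exact Submodule.zero_mem _
    exact fun u hu => hle hu
  rcases h (W ⊔ U1) hunit hx hy with h3 | h3
  · left
    rw [eq_bot_iff, ← h3]
    exact le_sup_left
  · right
    intro u hu
    have h5 : (P + Q) *ᵥ u = u := by
      rw [← hu, mulVec_mulVec, add_mul, H.PP, H.QP, add_zero]
    obtain ⟨u0, hu0, u1, hu1, h6⟩ := Submodule.mem_sup.1 (h3 _ h5)
    have h7 : P *ᵥ u1 = 0 := by rw [← hU1Q u1 hu1, mulVec_mulVec, H.PQ, zero_mulVec]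
    have h8 : u = u0 := by
      have h9 := congrArg (fun z => P *ᵥ z) h6
      simp only [mulVec_add, h7, add_zero, hW u0 hu0, hu] at h9
      exact h9.symm
    rw [h8]
    exact hu0

section three

variable (H : LieP G P Q a b) {e f p q : Matrix B B ℂ} (k : TrpP G P Q e f p q) (hp : p ∈ G)
  (hq : q ∈ G)
include H k hp hq

theorem px {x : Matrix B B ℂ} (hx : x ∈ pos G P Q) : p * x ∈ pos G P Q := by
  have h1 := H.br _ hp _ hx.1
  have h2 : x * p = 0 := by
    rw [← hx.2.2, ← k.Pp, mul_assoc, ← mul_assoc Q, H.QP, zero_mul, mul_zero]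
  rw [h2, sub_zero] at h1
  exact ⟨h1, by rw [← mul_assoc, k.Pp], by rw [mul_assoc, hx.2.2]⟩

theorem xq {x : Matrix B B ℂ} (hx : x ∈ pos G P Q) : x * q ∈ pos G P Q := by
  have h1 := H.br _ hx.1 _ hq
  have h2 : q * x = 0 := by
    rw [← hx.2.1, ← k.qQ, mul_assoc, ← mul_assoc Q, H.QP, zero_mul, mul_zero]
  rw [h2, sub_zero] at h1
  exact ⟨h1, by rw [← mul_assoc, hx.2.1], by rw [mul_assoc, k.qQ]⟩

theorem yp {y : Matrix B B ℂ} (hy : y ∈ pos G Q P) : y * p ∈ pos G Q P := by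
  have h1 := H.br _ hy.1 _ hp
  have h2 : p * y = 0 := by
    rw [← hy.2.1, ← k.pP, mul_assoc, ← mul_assoc P, H.PQ, zero_mul, mul_zero]
  rw [h2, sub_zero] at h1
  exact ⟨h1, by rw [← mul_assoc, hy.2.1], by rw [mul_assoc, k.pP]⟩

theorem qy {y : Matrix B B ℂ} (hy : y ∈ pos G Q P) : q * y ∈ pos G Q P := by
  have h1 := H.br _ hq _ hy.1
  have h2 : y * q = 0 := by
    rw [← hy.2.2, ← k.Qu, mul_assoc, ← mul_assoc P, H.PQ, zero_mul, mul_zero]
  rw [h2, sub_zero] at h1
  exact ⟨h1, by rw [← mul_assoc, k.Qu], by rw [mul_assoc, hy.2.2]⟩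

omit hp hq in
/-- An element in the first corner is a multiple of `e`. -/
theorem one_ef {x : Matrix B B ℂ} (hx : x ∈ pos G P Q) (h1 : p * x = x) (h2 : x * q = x) :
    ∃ c : ℂ, x = c • e := k.one x hx (by rw [h1, h2])

/-- The compression of the products. -/
theorem comp_xy {x y : Matrix B B ℂ} (hx : x ∈ pos G P Q) (hy : y ∈ pos G Q P) :
    ∃ c : ℂ, p * x * y * p = c • p := by
  -- the part through `q`
  obtain ⟨c1, h1⟩ := k.one (p * x * q) (xq H k hp hq (px H k hp hq hx)) (by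
    rw [← mul_assoc, ← mul_assoc, k.pp, mul_assoc _ q q, k.qq])
  obtain ⟨c2, h2⟩ := k.one' (q * y * p) (yp H k hp hq (qy H k hp hq hy)) (by
    rw [← mul_assoc, ← mul_assoc, k.qq, mul_assoc _ p p, k.pp])
  -- the part through `Q - q`
  have hx12 : p * x - p * x * q ∈ pos G P Q :=
    Submodule.sub_mem _ (px H k hp hq hx) (xq H k hp hq (px H k hp hq hx))
  have hy21 : y * p - q * y * p ∈ pos G Q P :=
    Submodule.sub_mem _ (yp H k hp hq hy) (yp H k hp hq (qy H k hp hq hy))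
  have h3 := H.tri hx12 hy21 k.mem
  have h4 : e * (y * p - q * y * p) = 0 := by
    rw [mul_sub, ← mul_assoc, ← mul_assoc, ← mul_assoc, k.eq, sub_self]
  rw [h4, zero_mul, add_zero] at h3
  obtain ⟨c3, h5⟩ := k.one _ h3 (by
    have e1 : p * ((p * x - p * x * q) * (y * p - q * y * p) * e) * q =
        ((p * p) * x - (p * p) * x * q) * (y * p - q * y * p) * (e * q) := by noncomm_ring
    rw [e1, k.pp, k.eq])
  refine ⟨c1 * c2 + c3, ?_⟩
  have e2 : p * x * y * p = (p * x * q) * (q * y * p) +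
      (p * x - p * x * q) * (y * p - q * y * p) * p + 0 := by
    have e3 : (p * x - p * x * q) * (y * p - q * y * p) * p = p * x * y * (p * p) -
        p * x * q * y * (p * p) - p * x * q * y * (p * p) + p * x * (q * q) * y * (p * p) := by
      noncomm_ring
    have e4 : (p * x * q) * (q * y * p) = p * x * (q * q) * y * p := by noncomm_ring
    rw [e3, e4, k.pp, k.qq]
    abel
  have e5 : (p * x - p * x * q) * (y * p - q * y * p) * p = c3 • p := by
    have e6 : (p * x - p * x * q) * (y * p - q * y * p) * e * f = c3 • p := by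
      rw [h5, smul_mul_assoc, k.ef]
    rwa [mul_assoc _ e f, k.ef] at e6
  rw [e2, e5, h1, h2, smul_mul_smul_comm, k.ef, add_zero, ← add_smul]

/-- The compression of the products of length four. -/
theorem comp_four {x x' y y' : Matrix B B ℂ} (hx : x ∈ pos G P Q) (hx' : x' ∈ pos G P Q)
    (hy : y ∈ pos G Q P) (hy' : y' ∈ pos G Q P) (h1 : p * x' = 0) (h2 : y * p = 0) :
    ∃ c : ℂ, p * x * y * x' * y' * p = c • p := by
  have X1 := px H k hp hq hx
  have X2 := xq H k hp hq X1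
  have X3 := Submodule.sub_mem _ X1 X2
  have Y1 := yp H k hp hq hy'
  have Y2 := qy H k hp hq Y1
  have Y3 := Submodule.sub_mem _ Y1 Y2
  have X4 := xq H k hp hq hx'
  have X5 := Submodule.sub_mem _ hx' X4
  have Y4 := qy H k hp hq hy
  have Y5 := Submodule.sub_mem _ hy Y4
  obtain ⟨c1, g1⟩ := k.one _ X2 (by
    rw [← mul_assoc, ← mul_assoc, k.pp, mul_assoc _ q q, k.qq])
  obtain ⟨c2, g2⟩ := k.one' _ Y2 (by
    rw [← mul_assoc, ← mul_assoc, k.qq, mul_assoc _ p p, k.pp, ← mul_assoc])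
  -- (1, 1)
  have t11 : ∃ c : ℂ, e * y * x' * f = c • p := by
    have h3 := H.tri k.mem hy hx'
    have h4 : x' * y * e = 0 := by rw [← k.pe, ← mul_assoc, mul_assoc x' y p, h2, mul_zero,
      zero_mul]
    rw [h4, add_zero] at h3
    obtain ⟨c, hc⟩ := k.one _ (xq H k hp hq h3) (by
      rw [← mul_assoc, ← mul_assoc, ← mul_assoc, k.pe, mul_assoc _ q q, k.qq])
    refine ⟨c, ?_⟩
    rw [← k.qf, ← mul_assoc, hc, smul_mul_assoc, k.ef]
  -- (1, 2)
  have t12 : ∃ c : ℂ, e * (y * (x' - x' * q) * (y' * p - q * (y' * p))) = c • p := by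
    have h3 := H.symm.tri hy X5 Y3
    have h4 : (y' * p - q * (y' * p)) * (x' - x' * q) * y = 0 := by
      have e1 : (y' * p - q * (y' * p)) * (x' - x' * q) * y =
          (y' - q * y') * ((p * x') - (p * x') * q) * y := by noncomm_ring
      rw [e1, h1, zero_mul, sub_zero, mul_zero, zero_mul]
    rw [h4, add_zero] at h3
    obtain ⟨c, hc⟩ := k.one' _ (qy H k hp hq h3) (by
      have e1 : q * (q * (y * (x' - x' * q) * (y' * p - q * (y' * p)))) * p =
          (q * q) * (y * (x' - x' * q) * (y' * (p * p) - q * (y' * (p * p)))) := by noncomm_ring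
      rw [e1, k.qq, k.pp])
    refine ⟨c, ?_⟩
    rw [← k.eq, mul_assoc, hc, mul_smul_comm, k.ef]
  -- (2, 1)
  have t21 : ∃ c : ℂ, (p * x - p * x * q) * (y - q * y) * x' * f = c • p := by
    have h3 := H.tri X3 Y5 X4
    have h4 : x' * q * (y - q * y) * (p * x - p * x * q) = 0 := by
      have e1 : x' * q * (y - q * y) = x' * (q * y - (q * q) * y) := by noncomm_ring
      rw [e1, k.qq, sub_self, mul_zero, zero_mul]
    rw [h4, add_zero] at h3
    obtain ⟨c, hc⟩ := k.one _ h3 (by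
      have e1 : p * ((p * x - p * x * q) * (y - q * y) * (x' * q)) * q =
          ((p * p) * x - (p * p) * x * q) * (y - q * y) * (x' * (q * q)) := by noncomm_ring
      rw [e1, k.pp, k.qq])
    refine ⟨c, ?_⟩
    rw [← k.qf]
    have e1 : (p * x - p * x * q) * (y - q * y) * x' * (q * f) =
        ((p * x - p * x * q) * (y - q * y) * (x' * q)) * f := by noncomm_ring
    rw [e1, hc, smul_mul_assoc, k.ef]
  -- (2, 2)
  have t22 : ∃ c : ℂ, (p * x - p * x * q) * (y - q * y) * (x' - x' * q) *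
      (y' * p - q * (y' * p)) = c • p := by
    have h3 := H.tri X3 Y5 X5
    have h4 : (x' - x' * q) * (y - q * y) * (p * x - p * x * q) = 0 := by
      have e1 : (x' - x' * q) * (y - q * y) * (p * x - p * x * q) =
          (x' - x' * q) * ((y * p) - q * (y * p)) * (x - x * q) := by noncomm_ring
      rw [e1, h2, mul_zero, sub_zero, mul_zero, zero_mul]
    rw [h4, add_zero] at h3
    obtain ⟨c, hc⟩ := comp_xy H k hp hq h3 Y3
    refine ⟨c, ?_⟩
    rw [← hc]
    have e1 : p * ((p * x - p * x * q) * (y - q * y) * (x' - x' * q)) *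
        (y' * p - q * (y' * p)) * p =
        (((p * p) * x - (p * p) * x * q) * (y - q * y) * (x' - x' * q)) *
          (y' * (p * p) - q * (y' * (p * p))) := by noncomm_ring
    rw [e1, k.pp]
  obtain ⟨c11, t11⟩ := t11
  obtain ⟨c12, t12⟩ := t12
  obtain ⟨c21, t21⟩ := t21
  obtain ⟨c22, t22⟩ := t22
  refine ⟨c1 * c2 * c11 + c1 * c12 + c2 * c21 + c22, ?_⟩
  have e0 : p * x * y * x' * y' * p =
      (p * x * q) * y * x' * (q * (y' * p)) +
      (p * x * q) * (y * (x' - x' * q) * (y' * p - q * (y' * p))) +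
      (p * x - p * x * q) * (y - q * y) * x' * (q * (y' * p)) +
      (p * x - p * x * q) * (y - q * y) * (x' - x' * q) * (y' * p - q * (y' * p)) := by
    have e1 : (p * x * q) * (y * (x' - x' * q) * (y' * p - q * (y' * p))) =
        p * x * q * y * x' * y' * p - p * x * q * y * x' * q * y' * p -
        p * x * q * y * x' * q * y' * p + p * x * q * y * x' * (q * q) * y' * p := by noncomm_ring
    have e2 : (p * x - p * x * q) * (y - q * y) =
        p * x * y - p * x * q * y - p * x * q * y + p * x * (q * q) * y := by noncomm_ring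
    have e3 : (x' - x' * q) * (y' * p - q * (y' * p)) =
        x' * y' * p - x' * q * y' * p - x' * q * y' * p + x' * (q * q) * y' * p := by noncomm_ring
    rw [mul_assoc ((p * x - p * x * q) * (y - q * y)) (x' - x' * q), e1, e2, e3, k.qq]
    noncomm_ring
  rw [e0, t22]
  have e5 : (p * x * q) * y * x' * (q * (y' * p)) = (c1 * c2) • (e * y * x' * f) := by
    rw [g1, g2]
    simp only [smul_mul_assoc, mul_smul_comm, smul_smul]
    rw [mul_comm c2 c1]
  have e6 : (p * x * q) * (y * (x' - x' * q) * (y' * p - q * (y' * p))) =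
      c1 • (e * (y * (x' - x' * q) * (y' * p - q * (y' * p)))) := by
    nth_rewrite 1 [g1]
    rw [smul_mul_assoc]
  have e7 : (p * x - p * x * q) * (y - q * y) * x' * (q * (y' * p)) =
      c2 • ((p * x - p * x * q) * (y - q * y) * x' * f) := by
    rw [g2, mul_smul_comm]
  rw [e5, e6, e7, t11, t12, t21]
  module

/-- **The projector has rank one.** -/
theorem trace_one (hirr : IrrXY G P Q) : trace p = 1 := by
  -- a vector in the range of `p`
  obtain ⟨v, hpv, hv0⟩ : ∃ v : B → ℂ, p *ᵥ v = v ∧ v ≠ 0 := by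
    by_contra hcon
    push Not at hcon
    apply k.ne
    rw [← k.pe]
    have h1 : p = 0 := by
      refine mat_ext fun w => ?_
      rw [zero_mulVec]
      exact hcon _ (by rw [mulVec_mulVec, k.pp])
    rw [h1, zero_mul]
  have hPv : P *ᵥ v = v := by rw [← hpv, mulVec_mulVec, k.Pp]
  let W : Submodule ℂ (B → ℂ) := Submodule.span ℂ ({v} ∪
    {w | ∃ x ∈ pos G P Q, ∃ y ∈ pos G Q P, p * x = 0 ∧ w = x *ᵥ (y *ᵥ v)})
  have hWP : ∀ u ∈ W, P *ᵥ u = u := by
    intro u hu
    induction hu using Submodule.span_induction with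
    | mem w hw =>
      rcases hw with hw | ⟨x, hx, y, hy, -, rfl⟩
      · rw [Set.mem_singleton_iff.1 hw, hPv]
      · rw [mulVec_mulVec, hx.2.1]
    | zero => exact mulVec_zero _
    | add x y _ _ hx hy => rw [mulVec_add, hx, hy]
    | smul r x _ hx => rw [mulVec_smul, hx]
  have hWp : ∀ u ∈ W, ∃ c : ℂ, p *ᵥ u = c • v := by
    intro u hu
    induction hu using Submodule.span_induction with
    | mem w hw =>
      rcases hw with hw | ⟨x, hx, y, hy, h0, rfl⟩
      · exact ⟨1, by rw [Set.mem_singleton_iff.1 hw, hpv, one_smul]⟩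
      · exact ⟨0, by rw [mulVec_mulVec, h0, zero_mulVec, zero_smul]⟩
    | zero => exact ⟨0, by rw [mulVec_zero, zero_smul]⟩
    | add x y _ _ hx hy =>
      obtain ⟨c, hc⟩ := hx
      obtain ⟨d, hd⟩ := hy
      exact ⟨c + d, by rw [mulVec_add, hc, hd, add_smul]⟩
    | smul r x _ hx =>
      obtain ⟨c, hc⟩ := hx
      exact ⟨r * c, by rw [mulVec_smul, hc, smul_smul]⟩
  have hst : ∀ x ∈ pos G P Q, ∀ y ∈ pos G Q P, ∀ u ∈ W, x *ᵥ (y *ᵥ u) ∈ W := by
    intro x hx y hy u hu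
    -- the part of `x` killed by `p`
    have hx0 : x - p * x ∈ pos G P Q := Submodule.sub_mem _ hx (px H k hp hq hx)
    have hpx0 : p * (x - p * x) = 0 := by rw [mul_sub, ← mul_assoc, k.pp, sub_self]
    have hy0 : y - y * p ∈ pos G Q P := Submodule.sub_mem _ hy (yp H k hp hq hy)
    have hy0p : (y - y * p) * p = 0 := by rw [sub_mul, mul_assoc, k.pp, sub_self]
    induction hu using Submodule.span_induction with
    | mem w hw =>
      rcases hw with hw | ⟨x', hx', y', hy', h0, rfl⟩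
      · rw [Set.mem_singleton_iff.1 hw]
        have e1 : x *ᵥ (y *ᵥ v) = p *ᵥ (x *ᵥ (y *ᵥ v)) + (x - p * x) *ᵥ (y *ᵥ v) := by
          rw [sub_mulVec, mulVec_mulVec (y *ᵥ v) p x]
          abel
        obtain ⟨c, hc⟩ := comp_xy H k hp hq hx hy
        have e2 : p *ᵥ (x *ᵥ (y *ᵥ v)) = c • v := by
          have e3 : p *ᵥ (x *ᵥ (y *ᵥ v)) = (p * x * y * p) *ᵥ v := by
            rw [← mulVec_mulVec v (p * x * y) p, hpv]
            simp only [mulVec_mulVec, mul_assoc]
          rw [e3, hc, smul_mulVec, hpv]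
        rw [e1, e2]
        exact W.add_mem (W.smul_mem _ (Submodule.subset_span (Or.inl rfl)))
          (Submodule.subset_span (Or.inr ⟨_, hx0, y, hy, hpx0, rfl⟩))
      · have h5 : (y * p) *ᵥ (x' *ᵥ (y' *ᵥ v)) = 0 := by
          rw [mulVec_mulVec, mul_assoc, h0, mul_zero, zero_mulVec]
        have h6 : y *ᵥ (x' *ᵥ (y' *ᵥ v)) = (y - y * p) *ᵥ (x' *ᵥ (y' *ᵥ v)) := by
          rw [sub_mulVec, h5, sub_zero]
        obtain ⟨y0, hy0e⟩ : ∃ y0, y0 = y - y * p := ⟨_, rfl⟩
        obtain ⟨x0, hx0e⟩ : ∃ x0, x0 = x - p * x := ⟨_, rfl⟩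
        rw [← hy0e] at hy0 hy0p h6
        rw [← hx0e] at hx0 hpx0
        have hy0v : y0 *ᵥ v = 0 := by rw [← hpv, mulVec_mulVec, hy0p, zero_mulVec]
        rw [h6]
        have e1 : x *ᵥ (y0 *ᵥ (x' *ᵥ (y' *ᵥ v))) = p *ᵥ (x *ᵥ (y0 *ᵥ (x' *ᵥ (y' *ᵥ v)))) +
            x0 *ᵥ (y0 *ᵥ (x' *ᵥ (y' *ᵥ v))) := by
          rw [hx0e, sub_mulVec, mulVec_mulVec (y0 *ᵥ _) p x]
          abel
        obtain ⟨c, hc⟩ := comp_four H k hp hq hx hx' hy0 hy' h0 hy0p
        have e2 : p *ᵥ (x *ᵥ (y0 *ᵥ (x' *ᵥ (y' *ᵥ v)))) = c • v := by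
          have e3 : p *ᵥ (x *ᵥ (y0 *ᵥ (x' *ᵥ (y' *ᵥ v)))) = (p * x * y0 * x' * y' * p) *ᵥ v := by
            rw [← mulVec_mulVec v (p * x * y0 * x' * y') p, hpv]
            simp only [mulVec_mulVec, mul_assoc]
          rw [e3, hc, smul_mulVec, hpv]
        have h7 := H.tri hx0 hy0 hx'
        have h8 := H.symm.tri hy0 hx0 hy'
        have e4 : x0 *ᵥ (y0 *ᵥ (x' *ᵥ (y' *ᵥ v))) =
            (x0 * y0 * x' + x' * y0 * x0) *ᵥ (y' *ᵥ v) -
              x' *ᵥ ((y0 * x0 * y' + y' * x0 * y0) *ᵥ v) := by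
          have e5 : (y0 * x0 * y' + y' * x0 * y0) *ᵥ v = (y0 * x0 * y') *ᵥ v := by
            rw [add_mulVec, ← mulVec_mulVec v (y' * x0) y0, hy0v, mulVec_zero, add_zero]
          rw [e5, add_mulVec]
          simp only [mulVec_mulVec, mul_assoc]
          abel
        rw [e1, e2, e4]
        refine W.add_mem (W.smul_mem _ (Submodule.subset_span (Or.inl rfl)))
          (W.sub_mem (Submodule.subset_span (Or.inr ⟨_, h7, y', hy', ?_, rfl⟩))
            (Submodule.subset_span (Or.inr ⟨x', hx', _, h8, h0, rfl⟩)))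
        rw [mul_add, ← mul_assoc, ← mul_assoc, hpx0, ← mul_assoc, ← mul_assoc, h0]
        simp
    | zero =>
      rw [mulVec_zero, mulVec_zero]
      exact W.zero_mem
    | add u1 u2 _ _ h1 h2 =>
      rw [mulVec_add, mulVec_add]
      exact W.add_mem h1 h2
    | smul r u1 _ h1 =>
      rw [mulVec_smul, mulVec_smul]
      exact W.smul_mem _ h1
  have hvW : v ∈ W := Submodule.subset_span (Or.inl rfl)
  rcases levi_xy H hirr hWP hst with h1 | h1
  · rw [h1, Submodule.mem_bot] at hvW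
    exact absurd hvW hv0
  · rw [trace_idemM k.pp]
    have h2 : finrank ℂ (LinearMap.range (mulVecLin p)) = 1 := by
      refine finrank_eq_one_of _ (e := v) ⟨v, hpv⟩ hv0 ?_
      rintro _ ⟨w, rfl⟩
      obtain ⟨c, hc⟩ := hWp (p *ᵥ w) (h1 _ (by rw [mulVec_mulVec, k.Pp]))
      refine ⟨c, ?_⟩
      rw [mulVec_mulVec, k.pp] at hc
      exact hc
    rw [h2, Nat.cast_one]

end three

end Pool.Agent.K9h17.L
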