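import Mathlib
import Pool.Agent.K9h17.L.Levi

/-!
# Irreducible representations of the general linear Lie algebra by idempotents

If the diagonal matrix units act as idempotents, the dimension is a binomial coefficient.
-/

set_option linter.unusedSectionVars false

namespace Pool.Agent.K9h17.L

open Matrix Module
open Pool.Agent.Y4.G (exists_eig_range)

variable {B : Type*} [Fintype B] [DecidableEq B]

/-- Matrices `E i j` in the corner of `R` with the commutation relations of the matrix units, which
act irreducibly, and where the `E i i` are idempotents. -/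
structure GLd {d : ℕ} (E : Fin d → Fin d → Matrix B B ℂ) (R : Matrix B B ℂ) : Prop where
  RR : R * R = R
  l : ∀ i j, R * E i j = E i j
  r : ∀ i j, E i j * R = E i j
  id : ∀ i, E i i * E i i = E i i
  br : ∀ i j k l, E i j * E k l - E k l * E i j =
    (if j = k then E i l else 0) - (if l = i then E k j else 0)
  irr : ∀ W : Submodule ℂ (B → ℂ), (∀ u ∈ W, R *ᵥ u = u) → (∀ i j, ∀ u ∈ W, E i j *ᵥ u ∈ W) →
    W = ⊥ ∨ ∀ u, R *ᵥ u = u → u ∈ W

namespace GLd

variable {d : ℕ} {E : Fin d → Fin d → Matrix B B ℂ} {R : Matrix B B ℂ} (h : GLd E R)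
include h

/-- Schur's lemma. -/
theorem schur {c : Matrix B B ℂ} (h1 : R * c = c) (h2 : c * R = c)
    (hc : ∀ i j, c * E i j = E i j * c) : ∃ κ : ℂ, c = κ • R := by
  by_cases hP0 : R = 0
  · refine ⟨0, ?_⟩
    rw [← h1, hP0, zero_mul, smul_zero]
  obtain ⟨μ, v, ⟨v', hv'⟩, hv0, hcv⟩ := exists_eig_range (N := c) hP0 (by
    intro v _
    refine ⟨c *ᵥ v, ?_⟩
    rw [mulVecLin_apply, mulVec_mulVec, h1])
  rw [mulVecLin_apply] at hv'
  have hPv : R *ᵥ v = v := by rw [← hv', mulVec_mulVec, h.RR]
  let U0 : Submodule ℂ (B → ℂ) :=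
    { carrier := {u | R *ᵥ u = u ∧ c *ᵥ u = μ • u}
      zero_mem' := ⟨mulVec_zero _, by rw [mulVec_zero, smul_zero]⟩
      add_mem' := fun {x y} hx hy => ⟨by rw [mulVec_add, hx.1, hy.1],
        by rw [mulVec_add, hx.2, hy.2, smul_add]⟩
      smul_mem' := fun r x hx => ⟨by rw [mulVec_smul, hx.1],
        by rw [mulVec_smul, hx.2, smul_comm]⟩ }
  refine ⟨μ, ?_⟩
  rcases h.irr U0 (fun u hu => hu.1) (fun i j u hu => by
    obtain ⟨h3, h4⟩ := hu
    refine ⟨?_, ?_⟩
    · rw [mulVec_mulVec, h.l]
    · rw [mulVec_mulVec, hc, ← mulVec_mulVec, h4, mulVec_smul]) with h3 | h3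
  · exfalso
    have h4 : v ∈ U0 := ⟨hPv, hcv⟩
    rw [h3, Submodule.mem_bot] at h4
    exact hv0 h4
  · refine mat_ext fun w => ?_
    have h4 := (h3 (R *ᵥ w) (by rw [mulVec_mulVec, h.RR])).2
    rw [← h2, ← mulVec_mulVec, h4, smul_mulVec]

theorem sum_scalar : ∃ κ : ℂ, ∑ i, E i i = κ • R := by
  refine h.schur ?_ ?_ fun k l => ?_
  · rw [Finset.mul_sum]
    exact Finset.sum_congr rfl fun i _ => h.l i i
  · rw [Finset.sum_mul]
    exact Finset.sum_congr rfl fun i _ => h.r i i
  · rw [← sub_eq_zero, Finset.sum_mul, Finset.mul_sum, ← Finset.sum_sub_distrib,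
      Finset.sum_congr rfl fun i _ => h.br i i k l, Finset.sum_sub_distrib,
      Finset.sum_ite_eq' Finset.univ k, Finset.sum_ite_eq Finset.univ l]
    simp

theorem up {k j : Fin d} (hj : j ≠ k) : E k k * E k j = E k j ∧ E k j * E k k = 0 := by
  have h1 := h.br k k k j
  rw [if_pos rfl, if_neg hj, sub_zero] at h1
  have h2 : E k k * E k j * E k k = 0 := by
    have h3 := congrArg (fun z => E k k * z) h1
    beta_reduce at h3
    rw [mul_sub, ← mul_assoc, h.id, ← mul_assoc] at h3
    exact sub_eq_self.1 h3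
  have h4 : E k j * E k k = 0 := by
    have h3 := congrArg (fun z => z * E k k) h1
    beta_reduce at h3
    rw [sub_mul, h2, mul_assoc (E k j), h.id, zero_sub] at h3
    have h5 : (2 : ℂ) • (E k j * E k k) = 0 := by
      rw [two_smul]
      nth_rewrite 1 [← h3]
      rw [neg_add_cancel]
    exact (smul_eq_zero.1 h5).resolve_left two_ne_zero
  refine ⟨?_, h4⟩
  rwa [h4, sub_zero] at h1

theorem dn {k i : Fin d} (hi : i ≠ k) : E i k * E k k = E i k ∧ E k k * E i k = 0 := by
  have h1 := h.br i k k k
  rw [if_pos rfl, if_neg hi.symm, sub_zero] at h1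
  have h2 : E k k * E i k * E k k = 0 := by
    have h3 := congrArg (fun z => z * E k k) h1
    beta_reduce at h3
    rw [sub_mul, mul_assoc (E i k), h.id] at h3
    exact sub_eq_self.1 h3
  have h4 : E k k * E i k = 0 := by
    have h3 := congrArg (fun z => E k k * z) h1
    beta_reduce at h3
    rw [mul_sub, ← mul_assoc, h2, ← mul_assoc, h.id, zero_sub] at h3
    have h5 : (2 : ℂ) • (E k k * E i k) = 0 := by
      rw [two_smul]
      nth_rewrite 1 [← h3]
      rw [neg_add_cancel]
    exact (smul_eq_zero.1 h5).resolve_left two_ne_zero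
  refine ⟨?_, h4⟩
  rwa [h4, sub_zero] at h1

theorem com {k i j : Fin d} (hi : i ≠ k) (hj : j ≠ k) : E k k * E i j = E i j * E k k := by
  have h1 := h.br k k i j
  rw [if_neg hi.symm, if_neg hj, sub_zero] at h1
  exact sub_eq_zero.1 h1

/-- The Lie algebra. -/
theorem lieI (k : Fin d) : LieI (Submodule.span ℂ (Set.range fun x : Fin d × Fin d => E x.1 x.2))
    (E k k) (R - E k k) where
  br := by
    intro X hX Y hY
    induction hX using Submodule.span_induction with
    | mem X hX =>
      obtain ⟨⟨i, j⟩, rfl⟩ := hX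
      induction hY using Submodule.span_induction with
      | mem Y hY =>
        obtain ⟨⟨i', j'⟩, rfl⟩ := hY
        change E i j * E i' j' - E i' j' * E i j ∈ _
        rw [h.br]
        refine Submodule.sub_mem _ ?_ ?_
        · split_ifs
          · exact Submodule.subset_span ⟨(i, j'), rfl⟩
          · exact Submodule.zero_mem _
        · split_ifs
          · exact Submodule.subset_span ⟨(i', j), rfl⟩
          · exact Submodule.zero_mem _
      | zero => rw [mul_zero, zero_mul, sub_zero]; exact Submodule.zero_mem _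
      | add Y Y' _ _ h1 h2 =>
        have e1 : E i j * (Y + Y') - (Y + Y') * E i j =
            (E i j * Y - Y * E i j) + (E i j * Y' - Y' * E i j) := by noncomm_ring
        change E i j * (Y + Y') - (Y + Y') * E i j ∈ _
        rw [e1]
        exact Submodule.add_mem _ h1 h2
      | smul c Y _ h1 =>
        rw [mul_smul_comm, smul_mul_assoc, ← smul_sub]
        exact Submodule.smul_mem _ _ h1
    | zero => rw [mul_zero, zero_mul, sub_zero]; exact Submodule.zero_mem _
    | add X X' _ _ h1 h2 =>
      have e1 : (X + X') * Y - Y * (X + X') = (X * Y - Y * X) + (X' * Y - Y * X') := by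
        noncomm_ring
      rw [e1]
      exact Submodule.add_mem _ h1 h2
    | smul c X _ h1 =>
      rw [mul_smul_comm, smul_mul_assoc, ← smul_sub]
      exact Submodule.smul_mem _ _ h1
  PP := h.id k
  QQ := by
    rw [sub_mul, mul_sub, mul_sub, h.RR, h.id, h.l, h.r]
    abel
  PQ := by rw [mul_sub, h.r, h.id, sub_self]
  QP := by rw [sub_mul, h.l, h.id, sub_self]
  mP := Submodule.subset_span ⟨(k, k), rfl⟩
  lel := by
    intro X hX
    rw [add_sub_cancel]
    induction hX using Submodule.span_induction with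
    | mem X hX =>
      obtain ⟨⟨i, j⟩, rfl⟩ := hX
      exact h.l i j
    | zero => rw [mul_zero]
    | add X X' _ _ h1 h2 => rw [mul_add, h1, h2]
    | smul c X _ h1 => rw [mul_smul_comm, h1]
  ler := by
    intro X hX
    rw [add_sub_cancel]
    induction hX using Submodule.span_induction with
    | mem X hX =>
      obtain ⟨⟨i, j⟩, rfl⟩ := hX
      exact h.r i j
    | zero => rw [zero_mul]
    | add X X' _ _ h1 h2 => rw [add_mul, h1, h2]
    | smul c X _ h1 => rw [smul_mul_assoc, h1]
  irr := by
    intro U h1 h2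
    rw [add_sub_cancel] at h1 ⊢
    exact h.irr U h1 fun i j u hu => h2 _ (Submodule.subset_span ⟨(i, j), rfl⟩) u hu

theorem irr_p (k : Fin d) {W : Submodule ℂ (B → ℂ)} (hW : ∀ u ∈ W, E k k *ᵥ u = u)
    (hst : ∀ i j, i ≠ k → j ≠ k → ∀ u ∈ W, E i j *ᵥ u ∈ W) :
    W = ⊥ ∨ ∀ u, E k k *ᵥ u = u → u ∈ W := by
  refine (h.lieI k).levi hW fun z hz hzP u hu => ?_
  have key : ∀ u ∈ W, E k k *ᵥ (z *ᵥ u) ∈ W := by
    intro u hu
    clear hzP
    induction hz using Submodule.span_induction with
    | mem X hX =>
      obtain ⟨⟨i, j⟩, rfl⟩ := hX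
      change E k k *ᵥ (E i j *ᵥ u) ∈ W
      rw [← hW u hu, mulVec_mulVec, mulVec_mulVec]
      by_cases hi : i = k
      · by_cases hj : j = k
        · rw [hi, hj, h.id, h.id, hW u hu]
          exact hu
        · rw [hi, mul_assoc, (h.up hj).2, mul_zero, zero_mulVec]
          exact W.zero_mem
      · by_cases hj : j = k
        · rw [hj, (h.dn hi).2, zero_mul, zero_mulVec]
          exact W.zero_mem
        · rw [h.com hi hj, mul_assoc, h.id, ← mulVec_mulVec, hW u hu]
          exact hst i j hi hj u hu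
    | zero => rw [zero_mulVec, mulVec_zero]; exact W.zero_mem
    | add X X' _ _ h1 h2 => rw [add_mulVec, mulVec_add]; exact W.add_mem h1 h2
    | smul c X _ h1 => rw [smul_mulVec, mulVec_smul]; exact W.smul_mem _ h1
  have h1 := key u hu
  rwa [mulVec_mulVec, hzP, ← mulVec_mulVec, hW u hu] at h1

theorem irr_q (k : Fin d) {W : Submodule ℂ (B → ℂ)} (hW : ∀ u ∈ W, (R - E k k) *ᵥ u = u)
    (hst : ∀ i j, i ≠ k → j ≠ k → ∀ u ∈ W, E i j *ᵥ u ∈ W) :
    W = ⊥ ∨ ∀ u, (R - E k k) *ᵥ u = u → u ∈ W := by
  have HR : LieI (Submodule.span ℂ (Set.range fun x : Fin d × Fin d => E x.1 x.2) ⊔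
      Submodule.span ℂ {R}) (R - E k k) (E k k) := by
    have H := h.lieI k
    have hRX : ∀ X ∈ Submodule.span ℂ (Set.range fun x : Fin d × Fin d => E x.1 x.2),
        R * X = X ∧ X * R = X := by
      intro X hX
      have h1 := H.lel X hX
      have h2 := H.ler X hX
      rw [add_sub_cancel] at h1 h2
      exact ⟨h1, h2⟩
    refine
      { br := ?_
        PP := H.QQ
        QQ := H.PP
        PQ := H.QP
        QP := H.PQ
        mP := Submodule.sub_mem _ (Submodule.mem_sup_right (Submodule.mem_span_singleton_self R))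
          (Submodule.mem_sup_left H.mP)
        lel := ?_
        ler := ?_
        irr := ?_ }
    · intro X hX Y hY
      obtain ⟨X1, hX1, X2, hX2, rfl⟩ := Submodule.mem_sup.1 hX
      obtain ⟨Y1, hY1, Y2, hY2, rfl⟩ := Submodule.mem_sup.1 hY
      obtain ⟨c, rfl⟩ := Submodule.mem_span_singleton.1 hX2
      obtain ⟨c', rfl⟩ := Submodule.mem_span_singleton.1 hY2
      have e1 : (X1 + c • R) * (Y1 + c' • R) - (Y1 + c' • R) * (X1 + c • R) =
          X1 * Y1 - Y1 * X1 := by
        simp only [mul_add, add_mul, mul_smul_comm, smul_mul_assoc, (hRX X1 hX1).1,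
          (hRX X1 hX1).2, (hRX Y1 hY1).1, (hRX Y1 hY1).2, h.RR]
        module
      rw [e1]
      exact Submodule.mem_sup_left (H.br _ hX1 _ hY1)
    · intro X hX
      obtain ⟨X1, hX1, X2, hX2, rfl⟩ := Submodule.mem_sup.1 hX
      obtain ⟨c, rfl⟩ := Submodule.mem_span_singleton.1 hX2
      rw [sub_add_cancel, mul_add, (hRX X1 hX1).1, mul_smul_comm, h.RR]
    · intro X hX
      obtain ⟨X1, hX1, X2, hX2, rfl⟩ := Submodule.mem_sup.1 hX
      obtain ⟨c, rfl⟩ := Submodule.mem_span_singleton.1 hX2
      rw [sub_add_cancel, add_mul, (hRX X1 hX1).2, smul_mul_assoc, h.RR]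
    · intro U h1 h2
      rw [sub_add_cancel] at h1 ⊢
      exact h.irr U h1 fun i j u hu => h2 _ (Submodule.mem_sup_left
        (Submodule.subset_span ⟨(i, j), rfl⟩)) u hu
  have hEW : ∀ u ∈ W, E k k *ᵥ u = 0 := by
    intro u hu
    rw [← hW u hu, mulVec_mulVec, mul_sub, h.r, h.id, sub_self, zero_mulVec]
  refine HR.levi hW fun z hz hzP u hu => ?_
  have key : ∀ u ∈ W, (R - E k k) *ᵥ (z *ᵥ u) ∈ W := by
    intro u hu
    clear hzP
    obtain ⟨X1, hX1, X2, hX2, rfl⟩ := Submodule.mem_sup.1 hz
    obtain ⟨c, rfl⟩ := Submodule.mem_span_singleton.1 hX2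
    rw [add_mulVec, mulVec_add]
    refine W.add_mem ?_ ?_
    · clear hz
      induction hX1 using Submodule.span_induction with
      | mem X hX =>
        obtain ⟨⟨i, j⟩, rfl⟩ := hX
        change (R - E k k) *ᵥ (E i j *ᵥ u) ∈ W
        by_cases hj : j = k
        · have h5 : E i j *ᵥ u = 0 := by
            by_cases hi : i = k
            · rw [hi, hj, hEW u hu]
            · rw [hj, ← (h.dn hi).1, ← mulVec_mulVec, hEW u hu, mulVec_zero]
          rw [h5, mulVec_zero]
          exact W.zero_mem
        · by_cases hi : i = k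
          · rw [hi, mulVec_mulVec, sub_mul, h.l, (h.up hj).1, sub_self, zero_mulVec]
            exact W.zero_mem
          · rw [mulVec_mulVec, sub_mul, h.l, h.com hi hj, sub_mulVec, ← mulVec_mulVec, hEW u hu,
              mulVec_zero, sub_zero]
            exact hst i j hi hj u hu
      | zero => rw [zero_mulVec, mulVec_zero]; exact W.zero_mem
      | add X X' _ _ h1 h2 => rw [add_mulVec, mulVec_add]; exact W.add_mem h1 h2
      | smul c X _ h1 => rw [smul_mulVec, mulVec_smul]; exact W.smul_mem _ h1
    · rw [smul_mulVec, mulVec_smul]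
      refine W.smul_mem _ ?_
      have h5 : (R - E k k) *ᵥ (R *ᵥ u) = u := by
        rw [mulVec_mulVec, sub_mul, h.RR, h.r, hW u hu]
      rw [h5]
      exact hu
  have h1 := key u hu
  rwa [mulVec_mulVec, hzP, ← mulVec_mulVec, hW u hu] at h1

end GLd

/-- **The dimension is a binomial coefficient.** -/
theorem GLd.main : ∀ (d : ℕ) (E : Fin d → Fin d → Matrix B B ℂ) (R : Matrix B B ℂ), GLd E R →
    R ≠ 0 → ∃ t : ℕ, ∑ i, E i i = (t : ℂ) • R ∧ trace R = (Nat.choose d t : ℂ) := by
  intro d
  induction d with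
  | zero =>
    intro E R h h0
    refine ⟨0, by simp, ?_⟩
    rw [Nat.choose_self, Nat.cast_one]
    -- a line
    obtain ⟨v, hv, hv0⟩ : ∃ v : B → ℂ, R *ᵥ v = v ∧ v ≠ 0 := by
      by_contra hcon
      push Not at hcon
      apply h0
      refine mat_ext fun w => ?_
      rw [zero_mulVec]
      exact hcon _ (by rw [mulVec_mulVec, h.RR])
    rcases h.irr (Submodule.span ℂ {v}) (fun u hu => by
      obtain ⟨c, rfl⟩ := Submodule.mem_span_singleton.1 hu
      rw [mulVec_smul, hv]) (fun i => i.elim0) with h1 | h1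
    · exact absurd (Submodule.span_singleton_eq_bot.1 h1) hv0
    · rw [Pool.Agent.Y4.G.trace_idemM h.RR]
      have h2 : finrank ℂ (LinearMap.range (mulVecLin R)) = 1 := by
        refine Pool.Agent.Y4.G.finrank_eq_one_of _ (e := v) ⟨v, hv⟩ hv0 ?_
        rintro _ ⟨w, rfl⟩
        obtain ⟨c, hc⟩ := Submodule.mem_span_singleton.1 (h1 (R *ᵥ w)
          (by rw [mulVec_mulVec, h.RR]))
        exact ⟨c, hc.symm⟩
      rw [h2, Nat.cast_one]
  | succ d ih =>
    intro E R h h0
    obtain ⟨k, hk⟩ : ∃ k, k = Fin.last d := ⟨_, rfl⟩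
    have hne : ∀ i : Fin d, i.castSucc ≠ k := fun i => by rw [hk]; exact (Fin.castSucc_lt_last i).ne
    have hof : ∀ i : Fin (d + 1), i ≠ k → ∃ j : Fin d, j.castSucc = i := by
      intro i hi
      rw [hk] at hi
      exact ⟨i.castPred hi, Fin.castSucc_castPred i hi⟩
    have HP := h.lieI k
    -- the two pieces
    have D1 : GLd (fun i j : Fin d => E i.castSucc j.castSucc * E k k) (E k k) :=
      { RR := h.id k
        l := fun i j => by rw [← mul_assoc, h.com (hne i) (hne j), mul_assoc, h.id]
        r := fun i j => by rw [mul_assoc, h.id]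
        id := fun i => by
          have e1 := h.com (hne i) (hne i)
          rw [mul_assoc, ← mul_assoc (E k k), e1, mul_assoc, h.id, ← mul_assoc, h.id]
        br := fun i j i' j' => by
          have e1 := h.com (hne i) (hne j)
          have e2 := h.com (hne i') (hne j')
          have e3 : E i.castSucc j.castSucc * E k k * (E i'.castSucc j'.castSucc * E k k) =
              E i.castSucc j.castSucc * E i'.castSucc j'.castSucc * E k k := by
            rw [mul_assoc, ← mul_assoc (E k k), e2, mul_assoc _ (E k k), h.id, mul_assoc]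
          have e4 : E i'.castSucc j'.castSucc * E k k * (E i.castSucc j.castSucc * E k k) =
              E i'.castSucc j'.castSucc * E i.castSucc j.castSucc * E k k := by
            rw [mul_assoc, ← mul_assoc (E k k), e1, mul_assoc _ (E k k), h.id, mul_assoc]
          rw [e3, e4, ← sub_mul, h.br, sub_mul, ite_mul, ite_mul, zero_mul]
          simp only [Fin.castSucc_inj]
        irr := fun W hW hst => h.irr_p k hW fun i j hi hj u hu => by
          obtain ⟨i, rfl⟩ := hof i hi
          obtain ⟨j, rfl⟩ := hof j hj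
          have h1 := hst i j u hu
          rwa [← mulVec_mulVec, hW u hu] at h1 }
    have D2 : GLd (fun i j : Fin d => E i.castSucc j.castSucc * (R - E k k)) (R - E k k) := by
      have hcm : ∀ i j : Fin d, (R - E k k) * E i.castSucc j.castSucc =
          E i.castSucc j.castSucc * (R - E k k) := fun i j => by
        rw [sub_mul, mul_sub, h.l, h.r, h.com (hne i) (hne j)]
      exact
      { RR := HP.QQ
        l := fun i j => by rw [← mul_assoc, hcm, mul_assoc, HP.QQ]
        r := fun i j => by rw [mul_assoc, HP.QQ]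
        id := fun i => by
          rw [mul_assoc, ← mul_assoc (R - E k k), hcm, mul_assoc, HP.QQ, ← mul_assoc, h.id]
        br := fun i j i' j' => by
          have e3 : E i.castSucc j.castSucc * (R - E k k) *
              (E i'.castSucc j'.castSucc * (R - E k k)) =
              E i.castSucc j.castSucc * E i'.castSucc j'.castSucc * (R - E k k) := by
            rw [mul_assoc, ← mul_assoc (R - E k k), hcm, mul_assoc _ (R - E k k), HP.QQ, mul_assoc]
          have e4 : E i'.castSucc j'.castSucc * (R - E k k) *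
              (E i.castSucc j.castSucc * (R - E k k)) =
              E i'.castSucc j'.castSucc * E i.castSucc j.castSucc * (R - E k k) := by
            rw [mul_assoc, ← mul_assoc (R - E k k), hcm, mul_assoc _ (R - E k k), HP.QQ, mul_assoc]
          rw [e3, e4, ← sub_mul, h.br, sub_mul, ite_mul, ite_mul, zero_mul]
          simp only [Fin.castSucc_inj]
        irr := fun W hW hst => h.irr_q k hW fun i j hi hj u hu => by
          obtain ⟨i, rfl⟩ := hof i hi
          obtain ⟨j, rfl⟩ := hof j hj
          have h1 := hst i j u hu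
          rwa [← mulVec_mulVec, hW u hu] at h1 }
    obtain ⟨κ, hκ⟩ := h.sum_scalar
    rw [Fin.sum_univ_castSucc, ← hk] at hκ
    have hs1 : ∑ i : Fin d, E i.castSucc i.castSucc * E k k =
        (∑ i : Fin d, E i.castSucc i.castSucc) * E k k := by rw [Finset.sum_mul]
    have hs2 : ∑ i : Fin d, E i.castSucc i.castSucc * (R - E k k) =
        (∑ i : Fin d, E i.castSucc i.castSucc) * (R - E k k) := by rw [Finset.sum_mul]
    have hS1 : (∑ i : Fin d, E i.castSucc i.castSucc) * E k k = (κ - 1) • E k k := by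
      have h1 := congrArg (fun z => z * E k k) hκ
      beta_reduce at h1
      rw [add_mul, h.id, smul_mul_assoc, h.l] at h1
      rw [sub_smul, one_smul, ← h1]
      abel
    have hS2 : (∑ i : Fin d, E i.castSucc i.castSucc) * (R - E k k) = κ • (R - E k k) := by
      have h1 := congrArg (fun z => z * (R - E k k)) hκ
      beta_reduce at h1
      have h2 : R * (R - E k k) = R - E k k := by rw [mul_sub, h.RR, h.l]
      rw [add_mul, HP.PQ, add_zero, smul_mul_assoc, h2] at h1
      exact h1
    have hkk : ∀ i : Fin (d + 1), i ≠ k → E i k = 0 → E i i = E k k := by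
      intro i hi h1
      have h2 := h.br i k k i
      rw [if_pos rfl, if_pos rfl, h1, zero_mul, mul_zero, sub_zero] at h2
      exact (sub_eq_zero.1 h2.symm)
    by_cases hp0 : E k k = 0
    · -- the first piece is zero
      have h1 : ∀ i, E i i = 0 := by
        intro i
        by_cases hi : i = k
        · rw [hi, hp0]
        · rw [hkk i hi (by rw [← (h.dn hi).1, hp0, mul_zero]), hp0]
      refine ⟨0, by simp [h1], ?_⟩
      obtain ⟨t, ht, htr⟩ := ih _ _ D2 (by rwa [hp0, sub_zero])
      have h2 : ((t : ℂ)) • (R - E k k) = 0 := by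
        rw [← ht]
        exact Finset.sum_eq_zero fun i _ => by rw [h1, zero_mul]
      rw [hp0, sub_zero] at h2 htr
      have h3 : t = 0 := by exact_mod_cast (smul_eq_zero.1 h2).resolve_right h0
      rw [htr, h3, Nat.choose_zero_right, Nat.choose_zero_right]
    by_cases hq0 : R - E k k = 0
    · have hRk : E k k = R := (sub_eq_zero.1 hq0).symm
      have h1 : ∀ i, E i i = R := by
        intro i
        by_cases hi : i = k
        · rw [hi, hRk]
        · rw [hkk i hi ?_, hRk]
          rw [← h.l, ← hRk, (h.dn hi).2]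
      refine ⟨d + 1, ?_, ?_⟩
      · rw [Finset.sum_congr rfl fun i _ => h1 i, Finset.sum_const, Finset.card_univ,
          Fintype.card_fin, Nat.cast_smul_eq_nsmul]
      obtain ⟨t, ht, htr⟩ := ih _ _ D1 hp0
      have h2 : ((t : ℂ)) • R = (d : ℂ) • R := by
        rw [← hRk, ← ht]
        have e1 : ∀ i : Fin d, E i.castSucc i.castSucc * E k k = E k k := fun i => by
          rw [h1 i.castSucc, h.l]
        rw [Finset.sum_congr rfl fun i _ => e1 i, Finset.sum_const, Finset.card_univ,
          Fintype.card_fin, Nat.cast_smul_eq_nsmul]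
      rw [← sub_eq_zero, ← sub_smul] at h2
      have h3 : t = d := by exact_mod_cast sub_eq_zero.1 ((smul_eq_zero.1 h2).resolve_right h0)
      rw [← hRk, htr, h3, Nat.choose_self, Nat.choose_self]
    · obtain ⟨t1, ht1, htr1⟩ := ih _ _ D1 hp0
      obtain ⟨t2, ht2, htr2⟩ := ih _ _ D2 hq0
      rw [hs1, hS1] at ht1
      rw [hs2, hS2] at ht2
      have h1 : κ - 1 = t1 := by
        rw [← sub_eq_zero, ← sub_smul] at ht1
        exact sub_eq_zero.1 ((smul_eq_zero.1 ht1).resolve_right hp0)
      have h2 : κ = t2 := by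
        rw [← sub_eq_zero, ← sub_smul] at ht2
        exact sub_eq_zero.1 ((smul_eq_zero.1 ht2).resolve_right hq0)
      have h3 : t2 = t1 + 1 := by
        have h4 : (t2 : ℂ) = t1 + 1 := by rw [← h2, ← h1]; ring
        exact_mod_cast h4
      refine ⟨t2, ?_, ?_⟩
      · rw [Fin.sum_univ_castSucc, ← hk, hκ, h2]
      · have h4 : trace R = trace (E k k) + trace (R - E k k) := by
          rw [← trace_add, add_sub_cancel]
        rw [h4, htr1, htr2, h3, Nat.choose_succ_succ]
        push_cast
        ring

end Pool.Agent.K9h17.L
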