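import Mathlib
import Pool.Agent.K9h17.L.Three

/-!
# The case of two orthogonal idempotents
-/

set_option linter.unusedSectionVars false

namespace Pool.Agent.K9h17.L

open Matrix Module
open Pool.Agent.Y4.G.Lie (pos mem_pos)
open Pool.Agent.N183.JP

variable {B : Type*} [Fintype B] [DecidableEq B]

variable {G : Submodule ℂ (Matrix B B ℂ)} {P Q : Matrix B B ℂ} {a b : ℕ}

/-- The minimal pair for the opposite grading. -/
theorem trp_symm (H : LieP G P Q a b) {e f p q : Matrix B B ℂ} (k : TrpP G P Q e f p q) :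
    TrpP G Q P f e q p where
  mem := k.fmem
  fmem := k.mem
  ne := by
    intro h0
    apply k.ne
    rw [← k.pe, ← k.ef, h0, mul_zero, zero_mul]
  pe := k.qf
  eq := k.fp
  pp := k.qq
  qq := k.pp
  ef := k.fe
  fe := k.ef
  qf := k.pe
  fp := k.eq
  Pp := k.Qu
  pP := k.qQ
  qQ := k.pP
  Qu := k.Pp
  one := k.one'
  one' := k.one
  tmem := fun x hx => by
    have h1 := H.symm.tri k.fmem k.mem hx
    rwa [k.fe, mul_assoc x, k.ef] at h1
  mem2 := k.mem2'
  mem2' := k.mem2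

/-- **Two orthogonal idempotents**: a minimal element has rank one if the multiplicities are
different. -/
theorem trace_one_of_two (H : LieP G P Q a b) (hR : P + Q ∈ G)
    (hnd : ∀ z ∈ G, (∀ w ∈ G, trace (z * w) = 0) → z = 0) (hirr : IrrXY G P Q) (hab : a ≠ b)
    {e f p q : Matrix B B ℂ} (k : TrpP G P Q e f p q) {x : Matrix B B ℂ} (hx : x ∈ pos G P Q)
    (hx0 : (P - p) * x * (Q - q) ≠ 0) : trace p = 1 := by
  have HI := lieI_of H hR
  have hQ : Q ∈ G := by
    have h1 := Submodule.sub_mem _ hR HI.mP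
    rwa [add_sub_cancel_left] at h1
  have hPp := k.idP H.PP
  have hQq := k.idQ H.QQ
  obtain ⟨u, hu⟩ : ∃ u, u = (P - p) * x * (Q - q) := ⟨_, rfl⟩
  rw [← hu] at hx0
  have hum : u ∈ pos G P Q := by rw [hu]; exact k.mem0 hx
  have hu1 : (P - p) * u = u := by rw [hu, ← mul_assoc, ← mul_assoc, hPp]
  have hu2 : u * (Q - q) = u := by rw [hu, mul_assoc, hQq]
  obtain ⟨y, hy, hxy⟩ := H.rg u hum
  obtain ⟨w, hw⟩ : ∃ w, w = (Q - q) * y * (P - p) := ⟨_, rfl⟩
  have hwm : w ∈ pos G Q P := by rw [hw]; exact (trp_symm H k).mem0 hy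
  have hw1 : (Q - q) * w = w := by rw [hw, ← mul_assoc, ← mul_assoc, hQq]
  have hw2 : w * (P - p) = w := by rw [hw, mul_assoc, hPp]
  have huwu : u * w * u = u := by
    rw [hw]
    calc u * ((Q - q) * y * (P - p)) * u = (u * (Q - q)) * y * ((P - p) * u) := by noncomm_ring
    _ = u := by rw [hu1, hu2, hxy]
  have hpu : p * u = 0 := by
    rw [← hu1, ← mul_assoc, mul_sub, k.pP, k.pp, sub_self, zero_mul]
  have hqw : q * w = 0 := by
    rw [← hw1, ← mul_assoc, mul_sub, k.qQ, k.qq, sub_self, zero_mul]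
  have htr : trace (u * w) ≠ 0 := by
    intro h0
    have h1 : u * w = 0 := idem_zero (by rw [← mul_assoc, huwu]) h0
    rw [h1, zero_mul] at huwu
    exact hx0 huwu.symm
  have htp : trace p ≠ 0 := by
    intro h0
    have h1 : p = 0 := idem_zero k.pp h0
    apply k.ne
    rw [← k.pe, h1, zero_mul]
  have hpq : p - q ∈ G := by
    rw [← k.ef, ← k.fe]
    exact H.br _ k.mem.1 _ k.fmem.1
  have hp : p ∈ G := by
    refine p_mem HI hnd hQ H.trP H.trQ hab k.pp k.qq k.Pp k.pP k.Qu k.qQ hpq k.trpq htp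
      (p' := u * w) (q' := w * u) ?_ ?_ ?_ ?_ (H.br _ hum.1 _ hwm.1) (trace_mul_comm _ _) htr ?_ ?_
    · rw [← mul_assoc, hum.2.1]
    · rw [mul_assoc, hwm.2.2]
    · rw [← mul_assoc, hwm.2.1]
    · rw [mul_assoc, hum.2.2]
    · rw [← mul_assoc, hpu, zero_mul]
    · rw [← mul_assoc, hqw, zero_mul]
  have hq : q ∈ G := by
    have h1 := Submodule.sub_mem _ hp hpq
    rwa [sub_sub_cancel] at h1
  exact trace_one H k hp hq hirr

end Pool.Agent.K9h17.L
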