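import Mathlib
import Pool.Agent.K9h17.L.RTwo
import Pool.Agent.K9h17.L.GLd

/-!
# The case where there are no two orthogonal idempotents

The multiplicities are consecutive binomial coefficients.
-/

set_option linter.unusedSectionVars false

namespace Pool.Agent.K9h17.L

open Matrix Module
open Pool.Agent.Y4.G (trF trF_apply exists_dual)
open Pool.Agent.Y4.G.Lie (pos mem_pos)
open Pool.Agent.N183.JP

variable {B : Type*} [Fintype B] [DecidableEq B]

variable {G : Submodule ℂ (Matrix B B ℂ)} {P Q : Matrix B B ℂ} {a b : ℕ}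

section one

variable (H : LieP G P Q a b) {e f p q : Matrix B B ℂ} (k : TrpP G P Q e f p q)
  (h0 : ∀ x ∈ pos G P Q, (P - p) * x * (Q - q) = 0)
include H

theorem pos_mul_pos {x y : Matrix B B ℂ} (hx : x ∈ pos G P Q) (hy : y ∈ pos G P Q) :
    x * y = 0 := by
  rw [← hx.2.2, ← hy.2.1, mul_assoc, ← mul_assoc Q, H.QP, zero_mul, mul_zero]

include k h0

theorem no_two_symm : ∀ y ∈ pos G Q P, (Q - q) * y * (P - p) = 0 := by
  intro y hy
  refine H.symm.nondeg ((trp_symm H k).mem0 hy) fun x hx => ?_
  rw [trF_apply]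
  have e1 : (Q - q) * y * (P - p) * x = (Q - q) * (y * (P - p) * x) := by noncomm_ring
  rw [e1, trace_mul_comm]
  have e2 : y * (P - p) * x * (Q - q) = y * ((P - p) * x * (Q - q)) := by noncomm_ring
  rw [e2, h0 x hx, mul_zero, trace_zero]

/-- The quadratic products with the sum of `e` and an element of the middle space. -/
theorem quad_one {u y : Matrix B B ℂ} (hu : u ∈ pos G P Q) (hpu : p * u + u * q = u)
    (hy : y ∈ pos G Q P) : ∃ c : ℂ, (e + u) * y * (e + u) = c • (e + u) := by
  have hpuq : p * u * q = 0 := by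
    have h1 := congrArg (fun z => p * z * q) hpu
    beta_reduce at h1
    have e1 : p * (p * u + u * q) * q = (p * p) * u * q + p * u * (q * q) := by noncomm_ring
    rw [e1, k.pp, k.qq] at h1
    exact add_eq_left.1 h1
  have hqu : q * u = 0 := by
    rw [← k.qQ, ← hu.2.1, mul_assoc, ← mul_assoc Q, H.QP, zero_mul, mul_zero]
  have hup : u * p = 0 := by
    rw [← k.Pp, ← hu.2.2, mul_assoc, ← mul_assoc Q, H.QP, zero_mul, mul_zero]
  have hpq0 : p * q = 0 := by
    rw [← k.pP, ← k.Qu, mul_assoc, ← mul_assoc P, H.PQ, zero_mul, mul_zero]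
  have hff : f * f = 0 := by
    rw [← k.fp]
    nth_rewrite 2 [← k.qf]
    rw [mul_assoc f p, ← mul_assoc p (q * f), ← mul_assoc p q, hpq0, zero_mul, zero_mul, mul_zero]
  have hee : e * e = 0 := pos_mul_pos H k.mem k.mem
  have huu : u * u = 0 := pos_mul_pos H hu hu
  have heu : e * u = 0 := pos_mul_pos H k.mem hu
  have hue : u * e = 0 := pos_mul_pos H hu k.mem
  -- `u f u` is zero
  have hufu : u * f * u = 0 := by
    have h1 := h0 _ (H.quad hu k.fmem)
    have h2 : (P - p) * (u * f * u) * (Q - q) = u * f * u := by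
      have e1 : u * f * u = (u * q) * f * (p * u) := by
        nth_rewrite 1 [← k.qf, ← k.fp]
        noncomm_ring
      have e2 : (P - p) * (u * q) = u * q := by
        rw [sub_mul, ← mul_assoc, ← mul_assoc, hu.2.1, hpuq, sub_zero]
      have e3 : (p * u) * (Q - q) = p * u := by
        rw [mul_sub, mul_assoc, hu.2.2, hpuq, sub_zero]
      rw [e1]
      calc (P - p) * (u * q * f * (p * u)) * (Q - q) =
          ((P - p) * (u * q)) * f * ((p * u) * (Q - q)) := by noncomm_ring
      _ = _ := by rw [e2, e3]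
    rw [← h2, h1]
  obtain ⟨z, hz⟩ : ∃ z, z = u * f - f * u := ⟨_, rfl⟩
  have hzG : z ∈ G := by rw [hz]; exact H.br _ hu.1 _ k.fmem.1
  have hzz : z * z = 0 := by
    rw [hz]
    have e1 : (u * f - f * u) * (u * f - f * u) = (u * f * u) * f - u * (f * f) * u -
        f * (u * u) * f + f * (u * f * u) := by noncomm_ring
    rw [e1, hufu, hff, huu]
    simp
  have hze : z * e = u * q := by
    rw [hz, sub_mul, mul_assoc u, k.fe, mul_assoc f, hue, mul_zero, sub_zero]
  have hez : e * z = -(p * u) := by
    rw [hz, mul_sub, ← mul_assoc, heu, zero_mul, ← mul_assoc, k.ef, zero_sub]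
  have hzez : z * e * z = 0 := by
    rw [hze, hz]
    have e1 : u * q * (u * f - f * u) = u * (q * u) * f - u * (q * f) * u := by noncomm_ring
    rw [e1, hqu, k.qf, hufu]
    simp
  have hPz : P * z = z * P := by
    rw [hz, mul_sub, sub_mul, ← mul_assoc, hu.2.1, ← mul_assoc, mul_assoc u f P, k.fmem.2.2,
      mul_assoc f u P]
    have e1 : P * f = 0 := by rw [← k.fmem.2.1, ← mul_assoc, H.PQ, zero_mul]
    have e2 : u * P = 0 := by rw [← hu.2.2, mul_assoc, H.QP, mul_zero]
    rw [e1, e2, zero_mul, mul_zero]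
  have hQz : Q * z = z * Q := H.comm_Q hzG hPz
  have hconj : (1 + z) * e * (1 - z) = e + u := by
    have e1 : (1 + z) * e * (1 - z) = e + z * e - e * z - z * e * z := by noncomm_ring
    rw [e1, hzez, hze, hez, sub_zero, sub_neg_eq_add, add_assoc, add_comm (u * q), hpu]
  obtain ⟨w, hw⟩ : ∃ w, w = (1 - z) * y * (1 + z) := ⟨_, rfl⟩
  have hwm : w ∈ pos G Q P := by
    refine ⟨?_, ?_, ?_⟩
    · have h1 := H.br _ hzG _ hy.1
      have h2 := H.br _ hzG _ h1
      have e1 : z * (z * y - y * z) - (z * y - y * z) * z = (z * z) * y - 2 • (z * y * z) +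
          y * (z * z) := by noncomm_ring
      rw [e1, hzz, zero_mul, mul_zero, add_zero, zero_sub] at h2
      have e2 : w = y - (z * y - y * z) + (2 : ℂ)⁻¹ • -(2 • (z * y * z)) := by
        rw [hw]
        have e3 : (1 - z) * y * (1 + z) = y - (z * y - y * z) - z * y * z := by noncomm_ring
        rw [e3]
        module
      rw [e2]
      exact Submodule.add_mem _ (Submodule.sub_mem _ hy.1 h1) (Submodule.smul_mem _ _ h2)
    · rw [hw]
      have e1 : Q * ((1 - z) * y * (1 + z)) = (Q * y - (Q * z) * y) * (1 + z) := by noncomm_ring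
      rw [e1, hQz, mul_assoc z, hy.2.1]
      noncomm_ring
    · rw [hw]
      have e1 : (1 - z) * y * (1 + z) * P = (1 - z) * (y * P + y * (z * P)) := by noncomm_ring
      rw [e1, ← hPz, ← mul_assoc y P, hy.2.2]
      noncomm_ring
  obtain ⟨c, hc⟩ := k.one _ (H.quad k.mem hwm) (by
    have e1 : p * (e * w * e) * q = (p * e) * w * (e * q) := by noncomm_ring
    rw [e1, k.pe, k.eq])
  refine ⟨c, ?_⟩
  rw [← hconj]
  have e1 : (1 - z) * y * (1 + z) = w := hw.symm
  calc (1 + z) * e * (1 - z) * y * ((1 + z) * e * (1 - z)) =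
      (1 + z) * (e * ((1 - z) * y * (1 + z)) * e) * (1 - z) := by noncomm_ring
  _ = (1 + z) * (c • e) * (1 - z) := by rw [e1, hc]
  _ = c • ((1 + z) * e * (1 - z)) := by rw [mul_smul_comm, smul_mul_assoc]

/-- The quadratic products, with the trace. -/
theorem quad_tr {u y : Matrix B B ℂ} (hu : u ∈ pos G P Q) (hpu : p * u + u * q = u)
    (hy : y ∈ pos G Q P) : trace p • ((e + u) * y * (e + u)) = trace ((e + u) * y) • (e + u) := by
  obtain ⟨c, hc⟩ := quad_one H k h0 hu hpu hy
  have hpuq : p * u * q = 0 := by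
    have h1 := congrArg (fun z => p * z * q) hpu
    beta_reduce at h1
    have e1 : p * (p * u + u * q) * q = (p * p) * u * q + p * u * (q * q) := by noncomm_ring
    rw [e1, k.pp, k.qq] at h1
    exact add_eq_left.1 h1
  have hufu : u * f * u = 0 := by
    have h1 := h0 _ (H.quad hu k.fmem)
    have h2 : (P - p) * (u * f * u) * (Q - q) = u * f * u := by
      have e1 : u * f * u = (u * q) * f * (p * u) := by
        nth_rewrite 1 [← k.qf, ← k.fp]
        noncomm_ring
      have e2 : (P - p) * (u * q) = u * q := by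
        rw [sub_mul, ← mul_assoc, ← mul_assoc, hu.2.1, hpuq, sub_zero]
      have e3 : (p * u) * (Q - q) = p * u := by
        rw [mul_sub, mul_assoc, hu.2.2, hpuq, sub_zero]
      rw [e1]
      calc (P - p) * (u * q * f * (p * u)) * (Q - q) =
          ((P - p) * (u * q)) * f * ((p * u) * (Q - q)) := by noncomm_ring
      _ = _ := by rw [e2, e3]
    rw [← h2, h1]
  -- `(e + u) f (e + u) = e + u`
  have h3 : (e + u) * f * (e + u) = e + u := by
    have e1 : (e + u) * f * (e + u) = (e * f) * e + (e * f) * u + u * (f * e) + u * f * u := by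
      noncomm_ring
    rw [e1, k.ef, k.fe, k.pe, hufu, add_zero, add_assoc, hpu]
  have h4 : trace (u * f) = 0 := by
    have e1 : u * f = u * q * f * p := by rw [mul_assoc u q f, k.qf, mul_assoc, k.fp]
    rw [e1, trace_mul_comm, ← mul_assoc, ← mul_assoc, hpuq, zero_mul, trace_zero]
  have h5 : trace ((e + u) * y) = c * trace p := by
    have h6 : trace ((e + u) * y) = trace (f * ((e + u) * y * (e + u))) := by
      have e1 : (e + u) * y = ((e + u) * f) * ((e + u) * y) := by
        nth_rewrite 1 [← h3]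
        noncomm_ring
      rw [e1]
      have e2 : f * ((e + u) * f * ((e + u) * y) * (e + u)) =
          f * (((e + u) * f * (e + u)) * (y * (e + u))) := by noncomm_ring
      have e3 : f * ((e + u) * y * (e + u)) = (f * ((e + u) * y)) * (e + u) := by noncomm_ring
      rw [h3] at e2
      have e4 : (e + u) * f * ((e + u) * y) = (e + u) * (f * ((e + u) * y)) := by noncomm_ring
      rw [e4, trace_mul_comm]
      congr 1
      have e5 : (e + u) * (f * ((e + u) * y)) = ((e + u) * f * (e + u)) * y := by noncomm_ring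
      rw [mul_assoc f, e5, h3]
    rw [h6, hc, mul_smul_comm, trace_smul, smul_eq_mul, trace_mul_comm, add_mul, trace_add, k.ef,
      h4, add_zero]
  rw [hc, h5, smul_smul, mul_comm]

/-- **The quadratic identity.** -/
theorem beta {x y : Matrix B B ℂ} (hx : x ∈ pos G P Q) (hy : y ∈ pos G Q P) :
    trace p • (x * y * x) = trace (x * y) • x := by
  obtain ⟨c, hc⟩ := k.one _ (k.mem2 x hx) (by
    rw [← mul_assoc, ← mul_assoc, k.pp, mul_assoc _ q q, k.qq])
  obtain ⟨u, hu⟩ : ∃ u, u = x - p * x * q := ⟨_, rfl⟩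
  have hum : u ∈ pos G P Q := by rw [hu]; exact Submodule.sub_mem _ hx (k.mem2 x hx)
  have hpu : p * u + u * q = u := by
    have h1 := h0 x hx
    have e1 : (P - p) * x * (Q - q) = (P * x) * Q - (P * x) * q - p * (x * Q) + p * x * q := by
      noncomm_ring
    rw [e1, hx.2.1, hx.2.2] at h1
    have e2 : p * u + u * q = p * x + x * q - ((p * p) * x * q + p * x * (q * q)) := by
      rw [hu]
      noncomm_ring
    rw [e2, k.pp, k.qq, hu]
    have h2 : p * x + x * q - (p * x * q + p * x * q) - (x - p * x * q) =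
        -(x - x * q - p * x + p * x * q) := by abel
    rw [h1, neg_zero] at h2
    exact sub_eq_zero.1 h2
  have hpu' : ∀ s : ℂ, p * (s • u) + (s • u) * q = s • u := by
    intro s
    rw [mul_smul_comm, smul_mul_assoc, ← smul_add, hpu]
  -- the quadratic form
  let F : Matrix B B ℂ → Matrix B B ℂ := fun x => trace p • (x * y * x) - trace (x * y) • x
  have hF : ∀ x, F x = trace p • (x * y * x) - trace (x * y) • x := fun _ => rfl
  have hF1 : ∀ s : ℂ, F (e + s • u) = 0 := by
    intro s
    rw [hF, quad_tr H k h0 (Submodule.smul_mem _ s hum) (hpu' s) hy, sub_self]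
  have hFe : F e = 0 := by
    have h1 := hF1 0
    rwa [zero_smul, add_zero] at h1
  have hxe : x = c • e + u := by rw [hu, hc]; abel
  have hexp : ∀ s : ℂ, F (e + s • u) = F e + s • (trace p • (e * y * u + u * y * e) -
      (trace (e * y) • u + trace (u * y) • e)) + (s * s) • F u := by
    intro s
    rw [hF, hF, hF]
    simp only [add_mul, mul_add, smul_mul_assoc, mul_smul_comm, trace_add, trace_smul, smul_eq_mul]
    module
  have h1 := hexp 1
  have h2 := hexp (-1)
  rw [hF1, hFe] at h1 h2
  have hFu : F u = 0 := by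
    have h3 : (2 : ℂ) • F u = 0 := by
      have h4 : (0 : Matrix B B ℂ) + 0 = (2 : ℂ) • F u := by
        nth_rewrite 1 [h1]
        nth_rewrite 1 [h2]
        module
      rw [← h4, add_zero]
    exact (smul_eq_zero.1 h3).resolve_left two_ne_zero
  have hB : trace p • (e * y * u + u * y * e) - (trace (e * y) • u + trace (u * y) • e) = 0 := by
    rw [hFu, smul_zero, add_zero, zero_add, one_smul] at h1
    exact h1.symm
  rw [← sub_eq_zero, ← hF, hxe]
  have h5 : F (c • e + u) = (c * c) • F e + c • (trace p • (e * y * u + u * y * e) -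
      (trace (e * y) • u + trace (u * y) • e)) + F u := by
    rw [hF, hF, hF]
    simp only [add_mul, mul_add, smul_mul_assoc, mul_smul_comm, trace_add, trace_smul, smul_eq_mul]
    module
  rw [h5, hFe, hFu, hB]
  simp

end one

end Pool.Agent.K9h17.L
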