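import Mathlib
import Pool.Agent.K9h17.L.ROne

/-!
# Consecutive binomial coefficients
-/

set_option linter.unusedSectionVars false

namespace Pool.Agent.K9h17.L

open Matrix Module
open Pool.Agent.Y4.G (trF trF_apply exists_dual)
open Pool.Agent.Y4.G.Lie (pos mem_pos)
open Pool.Agent.N183.JP

variable {B : Type*} [Fintype B] [DecidableEq B]

variable {G : Submodule ℂ (Matrix B B ℂ)} {P Q : Matrix B B ℂ} {a b : ℕ}

/-- Dual families with the triple identities. -/
structure Dual2 (G : Submodule ℂ (Matrix B B ℂ)) (P Q : Matrix B B ℂ) {n : ℕ}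
    (x y : Fin n → Matrix B B ℂ) : Prop where
  hx : ∀ i, x i ∈ pos G P Q
  hy : ∀ i, y i ∈ pos G Q P
  sx : ∀ z ∈ pos G P Q, ∃ c : Fin n → ℂ, z = ∑ i, c i • x i
  sy : ∀ z ∈ pos G Q P, ∃ c : Fin n → ℂ, z = ∑ i, c i • y i
  t : ∀ i j k, x i * y j * x k + x k * y j * x i =
    (if i = j then x k else 0) + (if k = j then x i else 0)
  t' : ∀ i j k, y i * x j * y k + y k * x j * y i =
    (if i = j then y k else 0) + (if k = j then y i else 0)

theorem Dual2.symm {n : ℕ} {x y : Fin n → Matrix B B ℂ} (D : Dual2 G P Q x y) :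
    Dual2 G Q P y x := ⟨D.hy, D.hx, D.sy, D.sx, D.t', D.t⟩

/-- The matrix units. -/
theorem Dual2.gl (H : LieP G P Q a b) (hirr : IrrXY G P Q) {n : ℕ}
    {x y : Fin n → Matrix B B ℂ} (D : Dual2 G P Q x y) : GLd (fun i j => x i * y j) P where
  RR := H.PP
  l i j := by rw [← mul_assoc, (D.hx i).2.1]
  r i j := by rw [mul_assoc, (D.hy j).2.2]
  id i := by
    have h1 := D.t i i i
    rw [if_pos rfl, ← two_smul ℂ, ← two_smul ℂ] at h1
    have h2 : x i * y i * x i = x i := smul_right_injective _ (two_ne_zero (α := ℂ)) h1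
    rw [← mul_assoc, h2]
  br i j k l := by
    have h1 := congrArg (fun z => z * y l) (D.t i j k)
    have h2 := congrArg (fun z => x k * z) (D.t' l i j)
    beta_reduce at h1 h2
    have e1 : x i * y j * (x k * y l) = (x i * y j * x k + x k * y j * x i) * y l -
        x k * y j * x i * y l := by noncomm_ring
    have e2 : x k * y l * (x i * y j) = x k * (y l * x i * y j + y j * x i * y l) -
        x k * y j * x i * y l := by noncomm_ring
    rw [e1, e2, h1, h2]
    simp only [add_mul, mul_add, ite_mul, mul_ite, zero_mul, mul_zero]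
    by_cases c1 : i = j
    · subst c1
      by_cases c2 : k = i
      · subst c2
        by_cases c3 : l = k
        · subst c3
          simp
        · simp [c3]
      · by_cases c3 : l = i
        · subst c3
          simp [c2, Ne.symm c2]
        · simp [c2, c3, Ne.symm c2]
    · by_cases c2 : k = j
      · subst c2
        by_cases c3 : l = i
        · subst c3
          simp [c1, Ne.symm c1]
        · simp [c1, c3, Ne.symm c1]
      · by_cases c3 : l = i
        · subst c3
          simp [c1, c2, Ne.symm c1, Ne.symm c2] <;> abel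
        · simp [c1, c2, c3, Ne.symm c1, Ne.symm c2] <;> abel
  irr W hW hst := by
    refine levi_xy H hirr hW fun z hz w hw u hu => ?_
    obtain ⟨c, rfl⟩ := D.sx z hz
    obtain ⟨c', rfl⟩ := D.sy w hw
    rw [mulVec_mulVec, Finset.sum_mul, Matrix.sum_mulVec]
    refine W.sum_mem fun i _ => ?_
    rw [Finset.mul_sum, Matrix.sum_mulVec]
    refine W.sum_mem fun j _ => ?_
    rw [smul_mul_smul_comm, smul_mulVec]
    exact W.smul_mem _ (hst i j u hu)

/-- **Consecutive binomial coefficients.** -/
theorem binom (H : LieP G P Q a b) {e f p q : Matrix B B ℂ} (k : TrpP G P Q e f p q)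
    (h0 : ∀ x ∈ pos G P Q, (P - p) * x * (Q - q) = 0) (hirr : IrrXY G P Q) :
    ∃ d s t : ℕ, s + t = d + 1 ∧ a = d.choose t ∧ b = d.choose s := by
  have htp : trace p ≠ 0 := by
    intro h1
    have h2 : p = 0 := idem_zero k.pp h1
    apply k.ne
    rw [← k.pe, h2, zero_mul]
  obtain ⟨n, b', y, hy, hyb, hys⟩ := exists_dual (trF B) (pos G P Q) (pos G Q P)
    (fun x hx h => H.nondeg hx h) (fun x hx h => H.symm.nondeg hx fun y hy => by
      rw [trF_apply, trace_mul_comm]
      exact h y hy)
  let x : Fin n → Matrix B B ℂ := fun i => (b' i : Matrix B B ℂ)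
  let Y : Fin n → Matrix B B ℂ := fun i => trace p • y i
  have hx : ∀ i, x i ∈ pos G P Q := fun i => (b' i).2
  have hY : ∀ i, Y i ∈ pos G Q P := fun i => Submodule.smul_mem _ _ (hy i)
  have htr : ∀ i j, trace (x i * Y j) = if i = j then trace p else 0 := by
    intro i j
    have h1 := hyb j (b' i)
    rw [trF_apply, Basis.repr_self, Finsupp.single_apply] at h1
    change trace (x i * trace p • y j) = _
    rw [mul_smul_comm, trace_smul, h1, smul_eq_mul, mul_ite, mul_one, mul_zero]
  have hpol : ∀ (u u' w : Matrix B B ℂ), u ∈ pos G P Q → u' ∈ pos G P Q → w ∈ pos G Q P →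
      trace p • (u * w * u' + u' * w * u) = trace (u * w) • u' + trace (u' * w) • u := by
    intro u u' w hu hu' hw
    have h1 := beta H k h0 (Submodule.add_mem _ hu hu') hw
    have h2 := beta H k h0 hu hw
    have h3 := beta H k h0 hu' hw
    have e1 : (u + u') * w * (u + u') = u * w * u + (u * w * u' + u' * w * u) + u' * w * u' := by
      noncomm_ring
    rw [e1, add_mul, trace_add, smul_add, smul_add, h2, h3] at h1
    have e2 : (trace (u * w) + trace (u' * w)) • (u + u') =
        trace (u * w) • u + (trace (u * w) • u' + trace (u' * w) • u) + trace (u' * w) • u' := by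
      module
    rw [e2] at h1
    exact add_left_cancel (add_right_cancel h1)
  have hpol' : ∀ (u u' w : Matrix B B ℂ), u ∈ pos G Q P → u' ∈ pos G Q P → w ∈ pos G P Q →
      trace p • (u * w * u' + u' * w * u) = trace (u * w) • u' + trace (u' * w) • u := by
    intro u u' w hu hu' hw
    have k' := trp_symm H k
    have h0' := no_two_symm H k h0
    have h1 := beta H.symm k' h0' (Submodule.add_mem _ hu hu') hw
    have h2 := beta H.symm k' h0' hu hw
    have h3 := beta H.symm k' h0' hu' hw
    have e1 : (u + u') * w * (u + u') = u * w * u + (u * w * u' + u' * w * u) + u' * w * u' := by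
      noncomm_ring
    rw [k.trpq] at h1 h2 h3
    rw [e1, add_mul, trace_add, smul_add, smul_add, h2, h3] at h1
    have e2 : (trace (u * w) + trace (u' * w)) • (u + u') =
        trace (u * w) • u + (trace (u * w) • u' + trace (u' * w) • u) + trace (u' * w) • u' := by
      module
    rw [e2] at h1
    exact add_left_cancel (add_right_cancel h1)
  have D : Dual2 G P Q x Y :=
    { hx := hx
      hy := hY
      sx := fun z hz => ⟨fun i => b'.repr ⟨z, hz⟩ i, by
        have h4 := congrArg Subtype.val (b'.sum_repr ⟨z, hz⟩)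
        refine h4.symm.trans ?_
        rw [Submodule.coe_sum]
        rfl⟩
      sy := fun z hz => ⟨fun i => trF B (b' i) z * (trace p)⁻¹, by
        refine (hys z hz).trans (Finset.sum_congr rfl fun i _ => ?_)
        change _ = _ • (trace p • y i)
        rw [smul_smul, mul_assoc, inv_mul_cancel₀ htp, mul_one]⟩
      t := fun i j l => by
        have h1 := hpol _ _ _ (hx i) (hx l) (hY j)
        rw [htr, htr] at h1
        apply smul_right_injective _ htp
        change trace p • (x i * Y j * x l + x l * Y j * x i) = _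
        rw [h1]
        change _ = trace p • (_ + _)
        rw [smul_add, smul_ite, smul_ite, smul_zero, ite_smul, ite_smul, zero_smul, zero_smul]
      t' := fun i j l => by
        have h1 := hpol' _ _ _ (hY i) (hY l) (hx j)
        rw [trace_mul_comm, trace_mul_comm (Y l), htr, htr] at h1
        apply smul_right_injective _ htp
        change trace p • (Y i * x j * Y l + Y l * x j * Y i) = _
        rw [h1]
        change _ = trace p • (_ + _)
        rw [smul_add, smul_ite, smul_ite, smul_zero, ite_smul, ite_smul, zero_smul, zero_smul]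
        simp only [eq_comm (a := j)] }
  have hP0 : P ≠ 0 := by
    intro h1
    apply k.ne
    rw [← k.mem.2.1, h1, zero_mul]
  have hQ0 : Q ≠ 0 := by
    intro h1
    apply k.ne
    rw [← k.mem.2.2, h1, mul_zero]
  obtain ⟨t, ht, htr1⟩ := GLd.main n _ _ (D.gl H hirr) hP0
  obtain ⟨s, hs, hsr1⟩ := GLd.main n _ _ (D.symm.gl H.symm hirr.symm) hQ0
  refine ⟨n, s, t, ?_, ?_, ?_⟩
  · -- an element of the basis
    obtain ⟨c, hc⟩ := D.sx e k.mem
    obtain ⟨j, hj⟩ : ∃ j, x j ≠ 0 := by
      by_contra hcon
      push Not at hcon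
      apply k.ne
      rw [hc]
      exact Finset.sum_eq_zero fun i _ => by rw [hcon, smul_zero]
    have h1 : (∑ i, x i * Y i) * x j + x j * ∑ i, Y i * x i = ((n : ℂ) + 1) • x j := by
      rw [Finset.sum_mul, Finset.mul_sum, ← Finset.sum_add_distrib]
      have h2 : ∀ i, x i * Y i * x j + x j * (Y i * x i) = x j + if j = i then x i else 0 := by
        intro i
        rw [← mul_assoc, D.t, if_pos rfl]
      rw [Finset.sum_congr rfl fun i _ => h2 i, Finset.sum_add_distrib,
        Finset.sum_ite_eq Finset.univ j, if_pos (Finset.mem_univ _), Finset.sum_const,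
        Finset.card_univ, Fintype.card_fin, add_smul, one_smul, Nat.cast_smul_eq_nsmul]
    rw [ht, hs, smul_mul_assoc, mul_smul_comm, (hx j).2.1, (hx j).2.2, ← add_smul, ← sub_eq_zero,
      ← sub_smul] at h1
    have h2 := sub_eq_zero.1 ((smul_eq_zero.1 h1).resolve_right hj)
    have h3 : (s : ℂ) + t = n + 1 := by rw [← h2]; ring
    exact_mod_cast h3
  · have h1 := htr1
    rw [H.trP] at h1
    exact_mod_cast h1
  · have h1 := hsr1
    rw [H.trQ] at h1
    exact_mod_cast h1

end Pool.Agent.K9h17.L
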