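import Mathlib
import Pool.Agent.N183.JP.Nondeg

/-!
# Irreducibility under the ideal generated by the elements of degree one
-/

set_option linter.unusedSectionVars false

namespace Pool.Agent.K9h17.L

open Module
open Pool.Agent.W528.Odd (Nz unX unX_mem rN2 SIrr trace_br)
open Pool.Agent.W548.Odd (IsIdl exists_repr sq_zero_of_up)
open Pool.Agent.Y224.TS (partner)
open Pool.Agent.N183.JP (trace_nondeg)

noncomputable section

variable {V : Type} [AddCommGroup V] [Module ℂ V] [FiniteDimensional ℂ V]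
  {𝔤 : Submodule ℂ (End ℂ V)} (hbr : ∀ X ∈ 𝔤, ∀ Y ∈ 𝔤, X * Y - Y * X ∈ 𝔤)
  (hirr : ∀ W : Submodule ℂ V, (∀ X ∈ 𝔤, X * X = (1 / 4 : ℂ) • 1 → ∀ u ∈ W, X u ∈ W) →
    W = ⊥ ∨ W = ⊤)

/-- The elements of trace zero in the radical of an ideal. -/
def radI (I : Submodule ℂ (End ℂ V)) : Submodule ℂ (End ℂ V) where
  carrier := {y | y ∈ I ∧ LinearMap.trace ℂ V y = 0 ∧ ∀ z ∈ I, LinearMap.trace ℂ V (y * z) = 0}
  add_mem' := by
    rintro a b ⟨h1, h2, h3⟩ ⟨h4, h5, h6⟩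
    exact ⟨I.add_mem h1 h4, by rw [map_add, h2, h5, add_zero],
      fun z hz => by rw [add_mul, map_add, h3 z hz, h6 z hz, add_zero]⟩
  zero_mem' := ⟨I.zero_mem, map_zero _, fun z _ => by rw [zero_mul, map_zero]⟩
  smul_mem' := by
    rintro c a ⟨h1, h2, h3⟩
    exact ⟨I.smul_mem _ h1, by rw [map_smul, h2, smul_zero],
      fun z hz => by rw [smul_mul_assoc, map_smul, h3 z hz, smul_zero]⟩

include hbr hirr in
theorem radI_eq {I : Submodule ℂ (End ℂ V)} (hI : IsIdl 𝔤 I) : radI I = ⊥ := by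
  have hS : SIrr (rN2 I I) := by
    refine Pool.Agent.W125.OT.SIrrT.main ℂ V _ (rN2 I I) 𝔤 ?_ hirr
    intro X hX hXX
    exact ⟨⟨unX hXX, unX_mem hXX (fun y hy => hI.br X hX y hy),
      unX_mem hXX (fun y hy => hI.br X hX y hy)⟩, rfl⟩
  refine Pool.Agent.W363.OT.Cart.main ℂ V _ (rN2 I I) hS _ ?_ ?_ ?_ ?_
  · rintro x ⟨hx, -⟩ y ⟨hy, hy1, hy2⟩
    have hxy : x * y - y * x ∈ I := hI.br x (hI.le hx) y hy
    refine ⟨hxy, ?_, fun z hz => ?_⟩
    · rw [map_sub, LinearMap.trace_mul_comm, sub_self]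
    · have h1 : x * y - y * x = -(y * x - x * y) := by abel
      rw [h1, neg_mul, map_neg, trace_br, hy2 _ (hI.br x (hI.le hx) z hz), neg_zero]
  · rintro g x ⟨hx, hx1, hx2⟩
    have h0 : LinearMap.trace ℂ V (rN2 I I g * x * rN2 I I g⁻¹) = LinearMap.trace ℂ V x := by
      rw [LinearMap.trace_mul_comm, ← mul_assoc, ← map_mul, inv_mul_cancel, map_one, one_mul]
    refine ⟨g.2.1.1 x hx, by rw [h0, hx1], fun z hz => ?_⟩
    have h1 := hx2 _ (g.2.1.2 z hz)
    have h2 : LinearMap.trace ℂ V (rN2 I I g * x * rN2 I I g⁻¹ * z) =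
        LinearMap.trace ℂ V (x * (rN2 I I g⁻¹ * z * rN2 I I g)) := by
      have h3 : rN2 I I g * x * rN2 I I g⁻¹ * z = rN2 I I g * (x * (rN2 I I g⁻¹ * z)) := by
        simp only [mul_assoc]
      rw [h3, LinearMap.trace_mul_comm]
      simp only [mul_assoc]
    exact h2.trans h1
  · rintro x ⟨-, hx, -⟩
    exact hx
  · rintro x ⟨hx, -⟩ y ⟨-, -, hy⟩
    rw [LinearMap.trace_mul_comm]
    exact hy x hx

include hirr in
theorem scal {y : End ℂ V} (hc : ∀ x ∈ 𝔤, y * x = x * y) : ∃ s : ℂ, y = s • 1 :=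
  Pool.Agent.Y126.JP.scal_of_irr (G := 𝔤) (fun W hW => hirr W fun X hX _ => hW X hX) y hc

include hbr hirr in
/-- The trace form is nondegenerate on each ideal. -/
theorem nd_idl {I : Submodule ℂ (End ℂ V)} (hI : IsIdl 𝔤 I) {y : End ℂ V} (hy : y ∈ I)
    (h : ∀ z ∈ I, LinearMap.trace ℂ V (y * z) = 0) : y = 0 := by
  have hc : ∀ x ∈ 𝔤, y * x = x * y := by
    intro x hx
    have h1 : x * y - y * x ∈ radI I := by
      refine ⟨hI.br x hx y hy, ?_, fun z hz => ?_⟩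
      · rw [map_sub, LinearMap.trace_mul_comm, sub_self]
      · have h1 : x * y - y * x = -(y * x - x * y) := by abel
        rw [h1, neg_mul, map_neg, trace_br, h _ (hI.br x hx z hz), neg_zero]
    rw [radI_eq hbr hirr hI, Submodule.mem_bot] at h1
    exact (sub_eq_zero.1 h1).symm
  obtain ⟨s, hs⟩ := scal hirr hc
  have h1 := h y hy
  rw [hs, smul_mul_smul_comm, mul_one, map_smul, LinearMap.trace_one, smul_eq_mul] at h1
  rcases mul_eq_zero.1 h1 with h2 | h2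
  · rw [hs, mul_self_eq_zero.1 h2, zero_smul]
  · have h3 : finrank ℂ V = 0 := by exact_mod_cast h2
    have : Subsingleton V := Module.finrank_zero_iff.1 h3
    exact LinearMap.ext fun v => Subsingleton.elim _ _

/-- The elements of degree one. -/
def UpS (𝔤 : Submodule ℂ (End ℂ V)) (D : End ℂ V) : Set (End ℂ V) :=
  {x | x ∈ 𝔤 ∧ D * x = x ∧ x * D = -x}

/-- The ideal generated by the elements of degree one and minus one. -/
def LL (𝔤 : Submodule ℂ (End ℂ V)) (D : End ℂ V) : Submodule ℂ (End ℂ V) :=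
  Submodule.span ℂ ((UpS 𝔤 D ∪ UpS 𝔤 (-D)) ∪
    {z | ∃ x ∈ UpS 𝔤 D, ∃ y ∈ UpS 𝔤 (-D), z = x * y - y * x})

theorem up_LL {D x : End ℂ V} (hx : x ∈ UpS 𝔤 D) : x ∈ LL 𝔤 D :=
  Submodule.subset_span (Or.inl (Or.inl hx))

theorem dn_LL {D x : End ℂ V} (hx : x ∈ UpS 𝔤 (-D)) : x ∈ LL 𝔤 D :=
  Submodule.subset_span (Or.inl (Or.inr hx))

theorem br_LL {D x y : End ℂ V} (hx : x ∈ UpS 𝔤 D) (hy : y ∈ UpS 𝔤 (-D)) :
    x * y - y * x ∈ LL 𝔤 D :=
  Submodule.subset_span (Or.inr ⟨x, hx, y, hy, rfl⟩)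

theorem dn_iff {D y : End ℂ V} : y ∈ UpS 𝔤 (-D) ↔ y ∈ 𝔤 ∧ D * y = -y ∧ y * D = y := by
  unfold UpS
  rw [Set.mem_ofPred_eq, neg_mul, mul_neg, neg_eq_iff_eq_neg, neg_inj]

/-- The decomposition by degree. -/
theorem dec3 (hbr : ∀ X ∈ 𝔤, ∀ Y ∈ 𝔤, X * Y - Y * X ∈ 𝔤) {D : End ℂ V} (hD : D ∈ 𝔤)
    (hD2 : D * D = 1) {g : End ℂ V} (hg : g ∈ 𝔤) : ∃ g1 g2 g0 : End ℂ V, g1 ∈ UpS 𝔤 D ∧
      g2 ∈ UpS 𝔤 (-D) ∧ g0 ∈ 𝔤 ∧ D * g0 = g0 * D ∧ g = g1 + g2 + g0 := by
  have hI : IsIdl 𝔤 𝔤 := ⟨le_rfl, hbr⟩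
  refine ⟨(1 / 4 : ℂ) • ((1 + D) * g * (1 - D)), (1 / 4 : ℂ) • ((1 - D) * g * (1 + D)),
    (1 / 2 : ℂ) • (g + D * g * D), ⟨𝔤.smul_mem _ (hI.up hD hD2 hg), ?_, ?_⟩,
    dn_iff.2 ⟨𝔤.smul_mem _ (hI.dn hD hD2 hg), ?_, ?_⟩, 𝔤.smul_mem _ (hI.ze hD hD2 hg), ?_, ?_⟩
  · rw [mul_smul_comm, ← mul_assoc, ← mul_assoc, mul_add, hD2, mul_one, add_comm D]
  · rw [smul_mul_assoc, mul_assoc, sub_mul, hD2, one_mul, ← smul_neg, ← mul_neg, neg_sub]
  · rw [mul_smul_comm, ← mul_assoc, ← mul_assoc, mul_sub, hD2, mul_one, ← smul_neg, ← neg_mul,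
      ← neg_mul, neg_sub]
  · rw [smul_mul_assoc, mul_assoc, add_mul, hD2, one_mul, add_comm D]
  · rw [mul_smul_comm, smul_mul_assoc, mul_add, add_mul, ← mul_assoc, ← mul_assoc, hD2, one_mul,
      mul_assoc _ D D, hD2, mul_one, add_comm]
  · have e1 : (1 + D) * g * (1 - D) + (1 - D) * g * (1 + D) = 2 • g - 2 • (D * g * D) := by
      noncomm_ring
    have e2 : (1 / 4 : ℂ) • ((1 + D) * g * (1 - D)) + (1 / 4 : ℂ) • ((1 - D) * g * (1 + D)) =
        (1 / 4 : ℂ) • (2 • g - 2 • (D * g * D)) := by rw [← e1, smul_add]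
    rw [e2]
    module

theorem mul_up {D x y : End ℂ V} (hx : x ∈ UpS 𝔤 D) (hy : y ∈ UpS 𝔤 D) : x * y = 0 := by
  have h1 : x * y = -(x * y) := by
    calc x * y = x * (D * y) := by rw [hy.2.1]
    _ = (x * D) * y := by rw [mul_assoc]
    _ = -(x * y) := by rw [hx.2.2, neg_mul]
  have h2 : (2 : ℂ) • (x * y) = 0 := by
    rw [two_smul]
    nth_rewrite 1 [h1]
    rw [neg_add_cancel]
  exact (smul_eq_zero.1 h2).resolve_left two_ne_zero

theorem up_br (hbr : ∀ X ∈ 𝔤, ∀ Y ∈ 𝔤, X * Y - Y * X ∈ 𝔤) {D x g : End ℂ V}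
    (hx : x ∈ UpS 𝔤 D) (hg : g ∈ 𝔤) (hgD : D * g = g * D) : g * x - x * g ∈ UpS 𝔤 D := by
  refine ⟨hbr _ hg _ hx.1, ?_, ?_⟩
  · rw [mul_sub, ← mul_assoc, hgD, mul_assoc, hx.2.1, ← mul_assoc, hx.2.1]
  · rw [sub_mul, mul_assoc, hx.2.2, mul_assoc x g D, ← hgD, ← mul_assoc x D g, hx.2.2]
    noncomm_ring

theorem br_comm {D x y : End ℂ V} (hx : x ∈ UpS 𝔤 D) (hy : y ∈ UpS 𝔤 (-D)) :
    D * (x * y - y * x) = (x * y - y * x) * D := by
  obtain ⟨-, hy1, hy2⟩ := dn_iff.1 hy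
  rw [mul_sub, sub_mul, ← mul_assoc, hx.2.1, ← mul_assoc, hy1, mul_assoc x y D, hy2,
    mul_assoc y x D, hx.2.2]
  noncomm_ring

/-- It is an ideal. -/
theorem ll_idl (hbr : ∀ X ∈ 𝔤, ∀ Y ∈ 𝔤, X * Y - Y * X ∈ 𝔤) {D : End ℂ V} (hD : D ∈ 𝔤)
    (hD2 : D * D = 1) : IsIdl 𝔤 (LL 𝔤 D) where
  le := by
    refine Submodule.span_le.2 ?_
    rintro z ((hz | hz) | ⟨x, hx, y, hy, rfl⟩)
    · exact hz.1
    · exact hz.1
    · exact hbr _ hx.1 _ hy.1
  br := by
    intro g hg z hz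
    obtain ⟨g1, g2, g0, h1, h2, h3, h4, rfl⟩ := dec3 hbr hD hD2 hg
    have h4' : -D * g0 = g0 * -D := by rw [neg_mul, mul_neg, h4]
    induction hz using Submodule.span_induction with
    | mem z hz =>
      rcases hz with (hz | hz) | ⟨x, hx, y, hy, rfl⟩
      · have e1 : (g1 + g2 + g0) * z - z * (g1 + g2 + g0) =
            g1 * z - z * g1 - (z * g2 - g2 * z) + (g0 * z - z * g0) := by noncomm_ring
        rw [e1, mul_up h1 hz, mul_up hz h1, sub_self, zero_sub]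
        exact Submodule.add_mem _ (Submodule.neg_mem _ (br_LL hz h2)) (up_LL (up_br hbr hz h3 h4))
      · have e1 : (g1 + g2 + g0) * z - z * (g1 + g2 + g0) =
            g2 * z - z * g2 + (g1 * z - z * g1) + (g0 * z - z * g0) := by noncomm_ring
        rw [e1, mul_up h2 hz, mul_up hz h2, sub_self, zero_add]
        exact Submodule.add_mem _ (br_LL h1 hz) (dn_LL (up_br hbr hz h3 h4'))
      · have h5 := br_comm hx hy
        have h5' : -D * (x * y - y * x) = (x * y - y * x) * -D := by rw [neg_mul, mul_neg, h5]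
        have hxy := hbr _ hx.1 _ hy.1
        have e1 : (g1 + g2 + g0) * (x * y - y * x) - (x * y - y * x) * (g1 + g2 + g0) =
            -((x * y - y * x) * g1 - g1 * (x * y - y * x)) -
              ((x * y - y * x) * g2 - g2 * (x * y - y * x)) +
              (((g0 * x - x * g0) * y - y * (g0 * x - x * g0)) +
                (x * (g0 * y - y * g0) - (g0 * y - y * g0) * x)) := by noncomm_ring
        rw [e1]
        exact Submodule.add_mem _ (Submodule.sub_mem _ (Submodule.neg_mem _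
          (up_LL (up_br hbr h1 hxy h5))) (dn_LL (up_br hbr h2 hxy h5')))
          (Submodule.add_mem _ (br_LL (up_br hbr hx h3 h4) hy) (br_LL hx (up_br hbr hy h3 h4')))
    | zero => rw [mul_zero, zero_mul, sub_zero]; exact Submodule.zero_mem _
    | add z z' _ _ h5 h6 =>
      have e1 : (g1 + g2 + g0) * (z + z') - (z + z') * (g1 + g2 + g0) =
          ((g1 + g2 + g0) * z - z * (g1 + g2 + g0)) +
            ((g1 + g2 + g0) * z' - z' * (g1 + g2 + g0)) := by noncomm_ring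
      rw [e1]
      exact Submodule.add_mem _ h5 h6
    | smul c z _ h5 =>
      rw [mul_smul_comm, smul_mul_assoc, ← smul_sub]
      exact Submodule.smul_mem _ _ h5

include hbr hirr in
/-- The trace form vanishes on the ideal and its centralizer. -/
theorem tr_comm {D : End ℂ V} (hD : D ∈ 𝔤) (hD2 : D * D = 1) {c : End ℂ V}
    (hc : ∀ w ∈ LL 𝔤 D, c * w = w * c) {w : End ℂ V} (hw : w ∈ LL 𝔤 D) :
    LinearMap.trace ℂ V (c * w) = 0 := by
  have hnd : ∀ y ∈ 𝔤, (∀ z ∈ 𝔤, LinearMap.trace ℂ V (y * z) = 0) → y = 0 :=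
    fun y hy h => trace_nondeg hbr hirr hy h
  have key : ∀ (D' : End ℂ V), D' ∈ 𝔤 → D' * D' = 1 → ∀ x ∈ UpS 𝔤 D', c * x = x * c →
      LinearMap.trace ℂ V (c * x) = 0 := by
    intro D' hD' hD2' x hx hcx
    obtain ⟨y, hy, -, -, hxy, -⟩ := partner hbr hnd hD' hD2' hx.1 hx.2.1 hx.2.2
    have hxx : x * x = 0 := sq_zero_of_up hx.2.1 hx.2.2
    have h1 : c * x = (c * x * y) * x := by
      nth_rewrite 1 [← hxy]
      simp only [mul_assoc]
    rw [h1, LinearMap.trace_mul_comm]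
    have h2 : x * (c * x * y) = c * (x * x) * y := by
      calc x * (c * x * y) = (x * c) * x * y := by simp only [mul_assoc]
      _ = c * (x * x) * y := by rw [← hcx]; simp only [mul_assoc]
    rw [h2, hxx, mul_zero, zero_mul, map_zero]
  have hDn : -D ∈ 𝔤 := 𝔤.neg_mem hD
  have hDn2 : -D * -D = 1 := by rw [neg_mul_neg, hD2]
  induction hw using Submodule.span_induction with
  | mem z hz =>
    rcases hz with (hz | hz) | ⟨x, hx, y, hy, rfl⟩
    · exact key D hD hD2 z hz (hc z (up_LL hz))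
    · exact key (-D) hDn hDn2 z hz (hc z (dn_LL hz))
    · have h1 : c * (x * y - y * x) = x * (c * y) - (c * y) * x := by
        rw [mul_sub, ← mul_assoc, hc x (up_LL hx)]
        simp only [mul_assoc]
      rw [h1, map_sub, LinearMap.trace_mul_comm, sub_self]
  | zero => rw [mul_zero, map_zero]
  | add z z' _ _ h5 h6 => rw [mul_add, map_add, h5, h6, add_zero]
  | smul r z _ h5 => rw [mul_smul_comm, map_smul, h5, smul_zero]

/-- The centralizer of the ideal. -/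
def CC (𝔤 : Submodule ℂ (End ℂ V)) (D : End ℂ V) : Submodule ℂ (End ℂ V) where
  carrier := {c | c ∈ 𝔤 ∧ ∀ w ∈ LL 𝔤 D, c * w = w * c}
  zero_mem' := ⟨𝔤.zero_mem, fun w _ => by rw [zero_mul, mul_zero]⟩
  add_mem' := fun {c c'} h h' => ⟨𝔤.add_mem h.1 h'.1, fun w hw => by
    rw [add_mul, mul_add, h.2 w hw, h'.2 w hw]⟩
  smul_mem' := fun s c h => ⟨𝔤.smul_mem _ h.1, fun w hw => by
    rw [smul_mul_assoc, mul_smul_comm, h.2 w hw]⟩

theorem cc_idl (hbr : ∀ X ∈ 𝔤, ∀ Y ∈ 𝔤, X * Y - Y * X ∈ 𝔤) {D : End ℂ V} (hD : D ∈ 𝔤)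
    (hD2 : D * D = 1) : IsIdl 𝔤 (CC 𝔤 D) where
  le := fun _ h => h.1
  br := by
    intro g hg c hc
    refine ⟨hbr _ hg _ hc.1, fun w hw => ?_⟩
    have h1 := hc.2 w hw
    have h2 := hc.2 _ ((ll_idl hbr hD hD2).br g hg w hw)
    rw [← sub_eq_zero] at h1 h2 ⊢
    have e1 : (g * c - c * g) * w - w * (g * c - c * g) = g * (c * w - w * c) -
        (c * w - w * c) * g - (c * (g * w - w * g) - (g * w - w * g) * c) := by noncomm_ring
    rw [e1, h1, h2]
    simp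

include hbr hirr in
/-- The Lie algebra is the sum of the ideal and its centralizer. -/
theorem dec2 {D : End ℂ V} (hD : D ∈ 𝔤) (hD2 : D * D = 1) {g : End ℂ V} (hg : g ∈ 𝔤) :
    ∃ l ∈ LL 𝔤 D, ∃ c ∈ CC 𝔤 D, g = l + c := by
  have hI := ll_idl hbr hD hD2
  obtain ⟨l, hl, h1⟩ := exists_repr (W := LL 𝔤 D) (fun c hc h => nd_idl hbr hirr hI hc h)
    ((LinearMap.trace ℂ V).comp (LinearMap.mulLeft ℂ g))
  have hlg : g - l ∈ 𝔤 := 𝔤.sub_mem hg (hI.le hl)
  refine ⟨l, hl, g - l, ⟨hlg, fun w hw => ?_⟩, by abel⟩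
  rw [← sub_eq_zero]
  refine trace_nondeg hbr hirr (hbr _ hlg _ (hI.le hw)) fun z hz => ?_
  have h2 := h1 _ (hI.br z hz w hw)
  change LinearMap.trace ℂ V (g * (z * w - w * z)) = _ at h2
  have h3 : ∀ m : End ℂ V, LinearMap.trace ℂ V ((m * w - w * m) * z) =
      -LinearMap.trace ℂ V (m * (z * w - w * z)) := by
    intro m
    rw [sub_mul, map_sub, mul_sub, map_sub, mul_assoc w, LinearMap.trace_mul_comm ℂ w]
    simp only [mul_assoc]
    ring
  rw [h3, sub_mul, map_sub, h2, sub_self, neg_zero]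

include hbr hirr in
theorem D_cc {D : End ℂ V} (hD : D ∈ 𝔤) (hD2 : D * D = 1) {c : End ℂ V} (hc : c ∈ CC 𝔤 D) :
    D * c = c * D := by
  rw [← sub_eq_zero]
  refine trace_nondeg hbr hirr (hbr _ hD _ hc.1) fun z hz => ?_
  obtain ⟨g1, g2, g0, h1, h2, h3, h4, rfl⟩ := dec3 hbr hD hD2 hz
  have h5 : LinearMap.trace ℂ V ((D * c - c * D) * (g1 + g2 + g0)) =
      LinearMap.trace ℂ V (c * ((g1 + g2 + g0) * D - D * (g1 + g2 + g0))) := by
    rw [sub_mul, map_sub, mul_sub, map_sub, mul_assoc D, LinearMap.trace_mul_comm ℂ D]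
    simp only [mul_assoc]
  obtain ⟨-, h6, h7⟩ := dn_iff.1 h2
  have h8 : (g1 + g2 + g0) * D - D * (g1 + g2 + g0) = (2 : ℂ) • (g2 - g1) := by
    rw [add_mul, add_mul, mul_add, mul_add, h1.2.1, h1.2.2, h6, h7, h4]
    module
  rw [h5, h8]
  exact tr_comm hbr hirr hD hD2 hc.2 (Submodule.smul_mem _ _ (Submodule.sub_mem _ (dn_LL h2)
    (up_LL h1)))

include hbr hirr in
/-- The involution belongs to the ideal up to a scalar. -/
theorem D_LL {D : End ℂ V} (hD : D ∈ 𝔤) (hD2 : D * D = 1) :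
    ∃ l ∈ LL 𝔤 D, ∃ s : ℂ, D = l + s • 1 := by
  obtain ⟨l, hl, c, hc, h1⟩ := dec2 hbr hirr hD hD2 hD
  have h2 : ∀ g ∈ 𝔤, c * g = g * c := by
    intro g hg
    obtain ⟨l', hl', c', hc', rfl⟩ := dec2 hbr hirr hD hD2 hg
    have h3 : c * c' = c' * c := by
      have h4 := D_cc hbr hirr hD hD2 hc'
      have h5 := hc'.2 l hl
      have h6 : c = D - l := by rw [h1]; abel
      rw [h6, sub_mul, mul_sub, h4, h5]
    rw [mul_add, add_mul, hc.2 l' hl', h3]
  obtain ⟨s, hs⟩ := scal hirr h2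
  exact ⟨l, hl, s, by rw [← hs]; exact h1⟩

include hbr hirr in
/-- Products of elements which commute with the other part. -/
theorem prod_ne {D : End ℂ V} (hD : D ∈ 𝔤) (hD2 : D * D = 1) {u u' : End ℂ V}
    (hu : ∀ c ∈ CC 𝔤 D, u * c = c * u) (hu' : ∀ l ∈ LL 𝔤 D, u' * l = l * u') (h : u * u' = 0) :
    u = 0 ∨ u' = 0 := by
  let A := Algebra.adjoin ℂ (LL 𝔤 D : Set (End ℂ V))
  have hAc : ∀ c : End ℂ V, (∀ l ∈ LL 𝔤 D, c * l = l * c) → ∀ a ∈ A, c * a = a * c := by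
    intro c hc a ha
    induction ha using Algebra.adjoin_induction with
    | mem x hx => exact hc x hx
    | algebraMap r => exact (Algebra.commutes r c).symm
    | add x y _ _ h1 h2 => rw [mul_add, add_mul, h1, h2]
    | mul x y _ _ h1 h2 => rw [← mul_assoc, h1, mul_assoc, h2, mul_assoc]
  let W : Submodule ℂ V :=
    { carrier := {v | ∀ a ∈ A, u (a v) = 0}
      zero_mem' := fun a _ => by rw [map_zero, map_zero]
      add_mem' := fun {v w} hv hw a ha => by rw [map_add, map_add, hv a ha, hw a ha, add_zero]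
      smul_mem' := fun s v hv a ha => by rw [map_smul, map_smul, hv a ha, smul_zero] }
  have hW : ∀ g ∈ 𝔤, ∀ v ∈ W, g v ∈ W := by
    intro g hg v hv a ha
    obtain ⟨l, hl, c, hc, rfl⟩ := dec2 hbr hirr hD hD2 hg
    rw [LinearMap.add_apply, map_add, map_add]
    have h1 : u (a (l v)) = 0 := by
      have h2 := hv (a * l) (mul_mem ha (Algebra.subset_adjoin hl))
      exact h2
    have h2 : u (a (c v)) = 0 := by
      have h3 : a * c = c * a := (hAc c hc.2 a ha).symm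
      have h4 : u (a (c v)) = (u * c) (a v) := by
        rw [← Module.End.mul_apply a c, h3]
        rfl
      rw [h4, hu c hc, Module.End.mul_apply, hv a ha, map_zero]
    rw [h1, h2, add_zero]
  rcases hirr W (fun X hX _ => hW X hX) with h1 | h1
  · right
    refine LinearMap.ext fun w => ?_
    have h2 : u' w ∈ W := by
      intro a ha
      have h3 : a * u' = u' * a := (hAc u' hu' a ha).symm
      have h4 : u (a (u' w)) = (u * u') (a w) := by
        rw [← Module.End.mul_apply a u', h3]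
        rfl
      rw [h4, h, LinearMap.zero_apply]
    rw [h1, Submodule.mem_bot] at h2
    exact h2
  · left
    refine LinearMap.ext fun w => ?_
    have h2 : w ∈ W := by rw [h1]; trivial
    exact h2 1 (one_mem A)

include hbr hirr in
/-- Elements of degree one in an ideal. -/
theorem exists_up {I : Submodule ℂ (End ℂ V)} (hI : IsIdl 𝔤 I) {D : End ℂ V} (hD : D ∈ 𝔤)
    (hD2 : D * D = 1) {z : End ℂ V} (hz : z ∈ I) (hne : D * z ≠ z * D) :
    ∃ u ∈ I, u ≠ 0 ∧ D * u = u ∧ u * D = -u := by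
  by_contra hcon
  push Not at hcon
  have h1 : ∀ z ∈ I, (1 + D) * z * (1 - D) = 0 := by
    intro z hz
    by_contra h0
    refine hcon _ (hI.up hD hD2 hz) h0 ?_ ?_
    · rw [← mul_assoc, ← mul_assoc, mul_add, hD2, mul_one, add_comm D]
    · rw [mul_assoc, sub_mul, hD2, one_mul, ← mul_neg, neg_sub]
  have h2 : (1 - D) * z * (1 + D) = 0 := by
    refine nd_idl hbr hirr hI (hI.dn hD hD2 hz) fun w hw => ?_
    have e1 : (1 - D) * z * (1 + D) * w = (1 - D) * (z * ((1 + D) * w)) := by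
      simp only [mul_assoc]
    rw [e1, LinearMap.trace_mul_comm]
    have e2 : z * ((1 + D) * w) * (1 - D) = z * ((1 + D) * w * (1 - D)) := by
      simp only [mul_assoc]
    rw [e2, h1 w hw, mul_zero, map_zero]
  apply hne
  have h3 := h1 z hz
  have e1 : (1 + D) * z * (1 - D) - (1 - D) * z * (1 + D) = (2 : ℂ) • (D * z - z * D) := by
    rw [two_smul]
    noncomm_ring
  rw [h3, h2, sub_self] at e1
  exact sub_eq_zero.1 ((smul_eq_zero.1 e1.symm).resolve_left two_ne_zero)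

include hbr hirr in
/-- An involution commutes with one of the two parts. -/
theorem dich {D : End ℂ V} (hD : D ∈ 𝔤) (hD2 : D * D = 1) {D' : End ℂ V} (hD' : D' ∈ 𝔤)
    (hD2' : D' * D' = 1) : (∀ c ∈ CC 𝔤 D, D' * c = c * D') ∨ ∀ l ∈ LL 𝔤 D, D' * l = l * D' := by
  by_contra hcon
  push Not at hcon
  obtain ⟨⟨c, hc, h1⟩, l, hl, h2⟩ := hcon
  obtain ⟨u, hu, hu0, hu1, hu2⟩ := exists_up hbr hirr (ll_idl hbr hD hD2) hD' hD2' hl h2
  obtain ⟨u', hu', hu0', hu1', hu2'⟩ := exists_up hbr hirr (cc_idl hbr hD hD2) hD' hD2' hc h1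
  have h3 : u * u' = 0 := by
    have h4 : u * u' = -(u * u') := by
      calc u * u' = u * (D' * u') := by rw [hu1']
      _ = (u * D') * u' := by rw [mul_assoc]
      _ = -(u * u') := by rw [hu2, neg_mul]
    have h5 : (2 : ℂ) • (u * u') = 0 := by
      rw [two_smul]
      nth_rewrite 1 [h4]
      rw [neg_add_cancel]
    exact (smul_eq_zero.1 h5).resolve_left two_ne_zero
  rcases prod_ne hbr hirr hD hD2 (fun c hc => (hc.2 u hu).symm) (fun l hl => hu'.2 l hl) h3 with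
    h4 | h4
  · exact hu0 h4
  · exact hu0' h4

end

end Pool.Agent.K9h17.L
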