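import Mathlib
import Pool.Agent.K9h17.L.Tens

/-!
# The arithmetic of commuting involutions
-/

set_option linter.unusedSectionVars false

namespace Pool.Agent.K9h17.L

open Module
open Pool.Agent.W548.Odd (IsIdl)

noncomputable section

variable {V : Type} [AddCommGroup V] [Module ℂ V] [FiniteDimensional ℂ V]

/-- The trace of an idempotent. -/
theorem trace_nat {e : End ℂ V} (h : e * e = e) : ∃ k : ℕ, LinearMap.trace ℂ V e = k :=
  ⟨_, (LinearMap.IsIdempotentElem.isProj_range e h).trace⟩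

/-- An idempotent of trace zero vanishes. -/
theorem idem_zero' {e : End ℂ V} (h : e * e = e) (h0 : LinearMap.trace ℂ V e = 0) : e = 0 := by
  have h1 := (LinearMap.IsIdempotentElem.isProj_range e h).trace
  rw [h0] at h1
  have h2 : finrank ℂ (LinearMap.range e) = 0 := by exact_mod_cast h1.symm
  exact LinearMap.range_eq_bot.1 (Submodule.finrank_eq_zero.1 h2)

theorem half_idem {D : End ℂ V} (hD : D * D = 1) :
    ((2 : ℂ)⁻¹ • (1 + D)) * ((2 : ℂ)⁻¹ • (1 + D)) = (2 : ℂ)⁻¹ • (1 + D) := by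
  have h1 : (1 + D) * (1 + D) = (2 : ℂ) • (1 + D) := by
    have h2 : (1 + D) * (1 + D) = 1 + D + (D + D * D) := by noncomm_ring
    rw [h2, hD, two_smul]
    abel
  rw [smul_mul_smul_comm, h1, smul_smul]
  norm_num

/-- The multiplicities of an involution which is not a scalar. -/
theorem exists_mult {D : End ℂ V} (hD : D * D = 1) (h1 : D ≠ 1) (h2 : D ≠ -1) :
    ∃ a b : ℕ, LinearMap.trace ℂ V D = (a : ℂ) - b ∧ a + b = finrank ℂ V ∧ 0 < a ∧ 0 < b := by
  have hn : -D * -D = 1 := by rw [neg_mul_neg, hD]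
  obtain ⟨a, ha⟩ := trace_nat (half_idem hD)
  obtain ⟨b, hb⟩ := trace_nat (half_idem hn)
  have ha' := ha
  have hb' := hb
  rw [map_smul, map_add, LinearMap.trace_one, smul_eq_mul] at ha hb
  rw [map_neg] at hb
  refine ⟨a, b, by rw [← ha, ← hb]; ring, ?_, ?_, ?_⟩
  · have h3 : ((a + b : ℕ) : ℂ) = (finrank ℂ V : ℂ) := by
      push_cast
      rw [← ha, ← hb]
      ring
    exact_mod_cast h3
  · rw [Nat.pos_iff_ne_zero]
    rintro rfl
    have h3 := idem_zero' (half_idem hD) (by rw [ha', Nat.cast_zero])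
    apply h2
    have h4 := (smul_eq_zero.1 h3).resolve_left (by norm_num)
    exact (eq_neg_of_add_eq_zero_right h4)
  · rw [Nat.pos_iff_ne_zero]
    rintro rfl
    have h3 := idem_zero' (half_idem hn) (by rw [hb', Nat.cast_zero])
    apply h1
    have h4 := (smul_eq_zero.1 h3).resolve_left (by norm_num)
    rw [← sub_eq_add_neg] at h4
    exact (sub_eq_zero.1 h4).symm

/-- The trace of the product of two projectors. -/
theorem dvd_aux {D D' : End ℂ V} (hD : D * D = 1) (hD' : D' * D' = 1) (hc : D * D' = D' * D)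
    {a b a' b' : ℕ} (ht : LinearMap.trace ℂ V D = (a : ℂ) - b) (hn : finrank ℂ V = a + b)
    (ht' : LinearMap.trace ℂ V D' = (a' : ℂ) - b') (hn' : a' + b' = finrank ℂ V)
    (h : (finrank ℂ V : ℂ) * LinearMap.trace ℂ V (D * D') =
      LinearMap.trace ℂ V D * LinearMap.trace ℂ V D') : finrank ℂ V ∣ a * a' := by
  have hcomm : Commute ((2 : ℂ)⁻¹ • (1 + D)) ((2 : ℂ)⁻¹ • (1 + D')) := by
    refine Commute.smul_left (Commute.smul_right ?_ _) _
    refine Commute.add_left (Commute.one_left _) (Commute.add_right (Commute.one_right _) hc)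
  have hid : (((2 : ℂ)⁻¹ • (1 + D)) * ((2 : ℂ)⁻¹ • (1 + D'))) *
      (((2 : ℂ)⁻¹ • (1 + D)) * ((2 : ℂ)⁻¹ • (1 + D'))) =
      ((2 : ℂ)⁻¹ • (1 + D)) * ((2 : ℂ)⁻¹ • (1 + D')) := by
    rw [hcomm.symm.mul_mul_mul_comm, half_idem hD, half_idem hD']
  obtain ⟨k, hk⟩ := trace_nat hid
  refine ⟨k, ?_⟩
  have h1 : ((2 : ℂ)⁻¹ • (1 + D)) * ((2 : ℂ)⁻¹ • (1 + D')) =
      (4 : ℂ)⁻¹ • (1 + D + D' + D * D') := by
    have h2 : (1 + D) * (1 + D') = 1 + D + D' + D * D' := by noncomm_ring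
    rw [smul_mul_smul_comm, h2]
    norm_num
  rw [h1, map_smul, map_add, map_add, map_add, LinearMap.trace_one, ht, ht', smul_eq_mul] at hk
  rw [ht, ht'] at h
  have h2 : ((a + b : ℕ) : ℂ) = finrank ℂ V := by rw [hn]
  have h3 : ((a' + b' : ℕ) : ℂ) = finrank ℂ V := by rw [hn']
  push_cast at h2 h3
  have h4 : ((finrank ℂ V * k : ℕ) : ℂ) = ((a * a' : ℕ) : ℂ) := by
    push_cast
    rw [← hk]
    have h5 : (finrank ℂ V : ℂ) * ((4 : ℂ)⁻¹ * (finrank ℂ V + ((a : ℂ) - b) + ((a' : ℂ) - b') +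
        LinearMap.trace ℂ V (D * D'))) = (4 : ℂ)⁻¹ * ((finrank ℂ V : ℂ) * finrank ℂ V +
          finrank ℂ V * ((a : ℂ) - b) + finrank ℂ V * ((a' : ℂ) - b') +
          finrank ℂ V * LinearMap.trace ℂ V (D * D')) := by ring
    rw [h5, h]
    have h6 : (b : ℂ) = finrank ℂ V - a := by rw [← h2]; ring
    have h7 : (b' : ℂ) = finrank ℂ V - a' := by rw [← h3]; ring
    rw [h6, h7]
    ring
  exact_mod_cast h4.symm

/-- Commuting involutions with orthogonal parts of trace zero. -/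
theorem dvd_gcd {D D' : End ℂ V} (hD : D * D = 1) (hD' : D' * D' = 1) (hc : D * D' = D' * D)
    {a b a' b' : ℕ} (ht : LinearMap.trace ℂ V D = (a : ℂ) - b) (hn : finrank ℂ V = a + b)
    (ht' : LinearMap.trace ℂ V D' = (a' : ℂ) - b') (hn' : a' + b' = finrank ℂ V)
    (h : (finrank ℂ V : ℂ) * LinearMap.trace ℂ V (D * D') =
      LinearMap.trace ℂ V D * LinearMap.trace ℂ V D') : a + b ∣ a.gcd b * a'.gcd b' := by
  have hm : -D * -D = 1 := by rw [neg_mul_neg, hD]
  have hm' : -D' * -D' = 1 := by rw [neg_mul_neg, hD']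
  have tm : LinearMap.trace ℂ V (-D) = (b : ℂ) - a := by rw [map_neg, ht]; ring
  have tm' : LinearMap.trace ℂ V (-D') = (b' : ℂ) - a' := by rw [map_neg, ht']; ring
  have hnm : finrank ℂ V = b + a := by rw [hn, add_comm]
  have hnm' : b' + a' = finrank ℂ V := by rw [← hn', add_comm]
  have h11 := dvd_aux hD hD' hc ht hn ht' hn' h
  have h12 := dvd_aux hD hm' (by rw [mul_neg, neg_mul, hc]) ht hn tm' hnm' (by
    rw [mul_neg, map_neg, map_neg, mul_neg, mul_neg, h])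
  have h21 := dvd_aux hm hD' (by rw [mul_neg, neg_mul, hc]) tm hnm ht' hn' (by
    rw [neg_mul, map_neg, map_neg, neg_mul, mul_neg, h])
  have h22 := dvd_aux hm hm' (by rw [neg_mul_neg, neg_mul_neg, hc]) tm hnm tm' hnm' (by
    rw [neg_mul_neg, map_neg, map_neg, neg_mul_neg, h])
  have h1 := Nat.dvd_gcd h11 h12
  have h2 := Nat.dvd_gcd h21 h22
  rw [Nat.gcd_mul_left] at h1 h2
  have h3 := Nat.dvd_gcd h1 h2
  rw [Nat.gcd_mul_right, hn] at h3
  exact h3

variable {𝔤 : Submodule ℂ (End ℂ V)} (hbr : ∀ X ∈ 𝔤, ∀ Y ∈ 𝔤, X * Y - Y * X ∈ 𝔤)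
  (hirr : ∀ W : Submodule ℂ V, (∀ X ∈ 𝔤, X * X = (1 / 4 : ℂ) • 1 → ∀ u ∈ W, X u ∈ W) →
    W = ⊥ ∨ W = ⊤)

include hbr hirr in
/-- The traces of products. -/
theorem tr_mul {D : End ℂ V} (hD : D ∈ 𝔤) (hD2 : D * D = 1) {c : End ℂ V}
    (hc : ∀ w ∈ LL 𝔤 D, c * w = w * c) :
    (finrank ℂ V : ℂ) * LinearMap.trace ℂ V (D * c) =
      LinearMap.trace ℂ V D * LinearMap.trace ℂ V c := by
  obtain ⟨l, hl, s, hs⟩ := D_LL hbr hirr hD hD2
  have h1 := tr_comm hbr hirr hD hD2 hc hl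
  have h2 := tr_comm hbr hirr hD hD2 (c := 1) (fun w _ => by rw [one_mul, mul_one]) hl
  rw [one_mul] at h2
  have h3 : LinearMap.trace ℂ V D = s * finrank ℂ V := by
    rw [hs, map_add, h2, map_smul, LinearMap.trace_one, zero_add, smul_eq_mul]
  have h4 : LinearMap.trace ℂ V (D * c) = s * LinearMap.trace ℂ V c := by
    rw [LinearMap.trace_mul_comm, hs, mul_add, map_add, h1, mul_smul_comm, mul_one, map_smul,
      zero_add, smul_eq_mul]
  rw [h3, h4]
  ring

include hbr hirr in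
/-- **Irreducibility**: the elements of degree one and minus one act irreducibly. -/
theorem irr_up (T : Set (End ℂ V)) (hT1 : ∀ X ∈ T, X ∈ 𝔤) (hT2 : ∀ X ∈ T, X * X = 1)
    (hgen : ∀ L : Submodule ℂ (End ℂ V), (∀ X ∈ T, X ∈ L) →
      (∀ X ∈ L, ∀ Y ∈ L, X * Y - Y * X ∈ L) → 𝔤 ≤ L)
    {D : End ℂ V} (hD : D ∈ 𝔤) (hD2 : D * D = 1) {a b : ℕ}
    (htr : LinearMap.trace ℂ V D = (a : ℂ) - b) (hn : finrank ℂ V = a + b)
    (hT : ∀ D' ∈ T, ∀ a' b' : ℕ, LinearMap.trace ℂ V D' = (a' : ℂ) - b' → a' + b' = a + b →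
      0 < a' → 0 < b' → ¬ a + b ∣ a.gcd b * a'.gcd b')
    (W : Submodule ℂ V) (h1 : ∀ x ∈ UpS 𝔤 D, ∀ u ∈ W, x u ∈ W)
    (h2 : ∀ y ∈ UpS 𝔤 (-D), ∀ u ∈ W, y u ∈ W) : W = ⊥ ∨ W = ⊤ := by
  have hL : ∀ l ∈ LL 𝔤 D, ∀ u ∈ W, l u ∈ W := by
    intro l hl
    induction hl using Submodule.span_induction with
    | mem z hz =>
      rcases hz with (hz | hz) | ⟨x, hx, y, hy, rfl⟩
      · exact h1 z hz
      · exact h2 z hz
      · intro u hu
        rw [LinearMap.sub_apply, Module.End.mul_apply, Module.End.mul_apply]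
        exact W.sub_mem (h1 _ hx _ (h2 _ hy _ hu)) (h2 _ hy _ (h1 _ hx _ hu))
    | zero => exact fun u _ => W.zero_mem
    | add z z' _ _ h5 h6 => exact fun u hu => W.add_mem (h5 u hu) (h6 u hu)
    | smul c z _ h5 => exact fun u hu => W.smul_mem c (h5 u hu)
  by_cases hcomm : ∀ D' ∈ T, ∀ c ∈ CC 𝔤 D, D' * c = c * D'
  · have hcen : ∀ c ∈ CC 𝔤 D, ∃ s : ℂ, c = s • 1 := by
      intro c hc
      refine scal hirr fun x hx => ?_
      let L : Submodule ℂ (End ℂ V) :=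
        { carrier := {g | ∀ c ∈ CC 𝔤 D, g * c = c * g}
          add_mem' := fun {x y} hx hy c hc => by rw [add_mul, mul_add, hx c hc, hy c hc]
          zero_mem' := fun c _ => by rw [zero_mul, mul_zero]
          smul_mem' := fun s x hx c hc => by rw [smul_mul_assoc, mul_smul_comm, hx c hc] }
      have h3 : 𝔤 ≤ L := by
        refine hgen L (fun X hX => hcomm X hX) fun X hX Y hY c hc => ?_
        have e1 := hX c hc
        have e2 := hY c hc
        calc (X * Y - Y * X) * c = X * (Y * c) - Y * (X * c) := by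
              rw [sub_mul, mul_assoc, mul_assoc]
        _ = X * (c * Y) - Y * (c * X) := by rw [e1, e2]
        _ = (X * c) * Y - (Y * c) * X := by rw [mul_assoc, mul_assoc]
        _ = (c * X) * Y - (c * Y) * X := by rw [e1, e2]
        _ = c * (X * Y - Y * X) := by rw [mul_sub, mul_assoc, mul_assoc]
      exact (h3 hx c hc).symm
    refine hirr W fun X hX _ u hu => ?_
    obtain ⟨l, hl, c, hc, rfl⟩ := dec2 hbr hirr hD hD2 hX
    obtain ⟨s, rfl⟩ := hcen c hc
    rw [LinearMap.add_apply, LinearMap.smul_apply, Module.End.one_apply]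
    exact W.add_mem (hL l hl u hu) (W.smul_mem s hu)
  · exfalso
    push Not at hcomm
    obtain ⟨D', hD', c, hc, hne⟩ := hcomm
    have hD1' := hT1 D' hD'
    have hD2' := hT2 D' hD'
    rcases dich hbr hirr hD hD2 hD1' hD2' with h3 | h3
    · exact hne (h3 c hc)
    obtain ⟨a', b', ht', hn', ha', hb'⟩ := exists_mult hD2' (by
      rintro rfl
      exact hne (by rw [one_mul, mul_one])) (by
      rintro rfl
      exact hne (by rw [neg_mul, mul_neg, one_mul, mul_one]))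
    have hDD : D * D' = D' * D := by
      obtain ⟨l, hl, s, hs⟩ := D_LL hbr hirr hD hD2
      rw [hs, add_mul, mul_add, h3 l hl, smul_mul_assoc, mul_smul_comm, one_mul, mul_one]
    exact hT D' hD' a' b' ht' (by rw [hn', hn]) ha' hb'
      (dvd_gcd hD2 hD2' hDD htr hn ht' hn' (tr_mul hbr hirr hD hD2 h3))

end

end Pool.Agent.K9h17.L
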