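import Mathlib
import Pool.Agent.N183.JP.Pair
import Pool.Agent.K9h17.L.Tens2
import Pool.Agent.K9h17.L.RTwo
import Pool.Agent.K9h17.L.Binom

/-!
# Elements of rank one for involutions with different multiplicities
-/

set_option linter.unusedSectionVars false

namespace Pool.Agent.K9h17.L

open Module Matrix
open Pool.Agent.Y4.G (trace_idemM)
open Pool.Agent.Y4.G.Lie (pos mem_pos)
open Pool.Agent.W548.Odd (rk)
open Pool.Agent.N183.JP

noncomputable section

variable {V : Type} [AddCommGroup V] [Module ℂ V] [FiniteDimensional ℂ V]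

/-- The sum with the scalars. -/
def ads (𝔤 : Submodule ℂ (End ℂ V)) : Submodule ℂ (End ℂ V) := 𝔤 ⊔ Submodule.span ℂ {1}

variable {𝔤 : Submodule ℂ (End ℂ V)}

theorem le_ads : 𝔤 ≤ ads 𝔤 := le_sup_left

theorem one_ads : (1 : End ℂ V) ∈ ads 𝔤 :=
  Submodule.mem_sup_right (Submodule.mem_span_singleton_self _)

theorem mem_ads {x : End ℂ V} (hx : x ∈ ads 𝔤) : ∃ y ∈ 𝔤, ∃ s : ℂ, x = y + s • 1 := by
  obtain ⟨y, hy, z, hz, rfl⟩ := Submodule.mem_sup.1 hx
  obtain ⟨s, rfl⟩ := Submodule.mem_span_singleton.1 hz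
  exact ⟨y, hy, s, rfl⟩

theorem ads_br (hbr : ∀ X ∈ 𝔤, ∀ Y ∈ 𝔤, X * Y - Y * X ∈ 𝔤) :
    ∀ X ∈ ads 𝔤, ∀ Y ∈ ads 𝔤, X * Y - Y * X ∈ ads 𝔤 := by
  intro X hX Y hY
  obtain ⟨x, hx, s, rfl⟩ := mem_ads hX
  obtain ⟨y, hy, t, rfl⟩ := mem_ads hY
  have h1 : ∀ u v : End ℂ V, (∀ z, u * z = z * u) → (∀ z, v * z = z * v) →
      (x + u) * (y + v) - (y + v) * (x + u) = x * y - y * x := by
    intro u v hu hv
    have e1 : (x + u) * (y + v) - (y + v) * (x + u) = x * y - y * x + (x * v - v * x) +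
        (u * y - y * u) + (u * v - v * u) := by noncomm_ring
    rw [e1, hu, hv, hu, sub_self, sub_self, sub_self, add_zero, add_zero, add_zero]
  rw [h1 _ _ (fun z => by rw [smul_mul_assoc, mul_smul_comm, one_mul, mul_one])
    (fun z => by rw [smul_mul_assoc, mul_smul_comm, one_mul, mul_one])]
  exact le_ads (hbr x hx y hy)

theorem up_ads (hbr : ∀ X ∈ 𝔤, ∀ Y ∈ 𝔤, X * Y - Y * X ∈ 𝔤) {D x : End ℂ V} (hD : D ∈ 𝔤)
    (hD2 : D * D = 1) (hx : x ∈ ads 𝔤) (h1 : D * x = x) (h2 : x * D = -x) : x ∈ 𝔤 := by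
  obtain ⟨y, hy, s, rfl⟩ := mem_ads hx
  have hI : Pool.Agent.W548.Odd.IsIdl 𝔤 𝔤 := ⟨le_rfl, hbr⟩
  have h3 := hI.up hD hD2 hy
  have h4 : ∀ z : End ℂ V, D * z = z → z * D = -z →
      z = (1 / 4 : ℂ) • ((1 + D) * z * (1 - D)) := by
    intro z h1 h2
    have e1 : (1 + D) * z * (1 - D) = z + D * z - z * D - (D * z) * D := by noncomm_ring
    rw [e1, h1, h2]
    module
  have h5 : (1 + D) * (y + s • 1) * (1 - D) = (1 + D) * y * (1 - D) := by
    have e2 : (1 + D) * (1 - D) = 0 := by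
      have e3 : (1 + D) * (1 - D) = 1 - D * D := by noncomm_ring
      rw [e3, hD2, sub_self]
    rw [mul_add, add_mul, mul_smul_comm, mul_one, smul_mul_assoc, e2, smul_zero, add_zero]
  rw [h4 _ h1 h2, h5]
  exact 𝔤.smul_mem _ h3

/-- **Elements of rank one**: an irreducible Lie algebra generated by involutions, with an
involution whose eigenvalues have different multiplicities `a` and `b`, which are not consecutive
binomial coefficients, if `a + b` does not divide the products of the greatest common divisors. -/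
theorem exists_rk1_ne (hbr : ∀ X ∈ 𝔤, ∀ Y ∈ 𝔤, X * Y - Y * X ∈ 𝔤)
    (hirr : ∀ W : Submodule ℂ V, (∀ X ∈ 𝔤, X * X = (1 / 4 : ℂ) • 1 → ∀ u ∈ W, X u ∈ W) →
      W = ⊥ ∨ W = ⊤)
    (T : Set (End ℂ V)) (hT1 : ∀ X ∈ T, X ∈ 𝔤) (hT2 : ∀ X ∈ T, X * X = 1)
    (hgen : ∀ L : Submodule ℂ (End ℂ V), (∀ X ∈ T, X ∈ L) →
      (∀ X ∈ L, ∀ Y ∈ L, X * Y - Y * X ∈ L) → 𝔤 ≤ L)
    {D : End ℂ V} (hD : D ∈ 𝔤) (hD2 : D * D = 1) {a b : ℕ}
    (htr : LinearMap.trace ℂ V D = (a : ℂ) - b) (hn : finrank ℂ V = a + b) (ha : 0 < a) (hb : 0 < b)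
    (hab : a ≠ b) (hnb : ∀ d s : ℕ, 2 ≤ s → s + 1 ≤ d → ¬(a = d.choose (s - 1) ∧ b = d.choose s))
    (hT : ∀ D' ∈ T, ∀ a' b' : ℕ, LinearMap.trace ℂ V D' = (a' : ℂ) - b' → a' + b' = a + b →
      0 < a' → 0 < b' → ¬ a + b ∣ a.gcd b * a'.gcd b') :
    ∃ x ∈ 𝔤, D * x = x ∧ x * D = -x ∧ rk x = 1 := by
  by_contra hcon
  push Not at hcon
  have hbr' := ads_br hbr
  have hirr' : ∀ W : Submodule ℂ V, (∀ X ∈ ads 𝔤, X * X = (1 / 4 : ℂ) • 1 → ∀ u ∈ W, X u ∈ W) →
      W = ⊥ ∨ W = ⊤ := fun W hW => hirr W fun X hX => hW X (le_ads hX)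
  have hD' : D ∈ ads 𝔤 := le_ads hD
  have H := lieP hbr' hirr' hD' hD2 htr hn
  have hNR : NR1 (mG (ads 𝔤)) (mm V (prj D)) (mm V (prj (-D))) :=
    nr1 fun x hx h1 h2 => hcon x (up_ads hbr hD hD2 hx h1 h2) h1 h2
  have hsum : mm V (prj D) + mm V (prj (-D)) = 1 := by rw [← map_add, prj_add, map_one]
  have hR : mm V (prj D) + mm V (prj (-D)) ∈ mG (ads 𝔤) := by
    rw [hsum, ← map_one (mm V)]
    exact mem_mG.2 one_ads
  have hnd : ∀ z ∈ mG (ads 𝔤), (∀ w ∈ mG (ads 𝔤), trace (z * w) = 0) → z = 0 := by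
    intro z hz hzw
    obtain ⟨y, hy, rfl⟩ := exists_mG hz
    rw [trace_nondeg hbr' hirr' hy fun w hw => ?_, map_zero]
    have h1 := hzw _ (mem_mG.2 hw)
    rwa [← map_mul, mm_trace] at h1
  have hDn : -D ∈ 𝔤 := 𝔤.neg_mem hD
  have hI : IrrXY (mG (ads 𝔤)) (mm V (prj D)) (mm V (prj (-D))) := by
    intro U _ hU1 hU2
    rcases irr_up hbr hirr T hT1 hT2 hgen hD hD2 htr hn hT (U.comap (cf V).toLinearMap)
      (fun x hx u hu => by
        rw [Submodule.mem_comap] at hu ⊢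
        change cf V (x u) ∈ U
        rw [← mm_mulVec]
        refine hU1 _ ⟨mem_mG.2 (le_ads hx.1), ?_, ?_⟩ _ hu
        · rw [← map_mul, prj_of_D hx.2.1]
        · rw [← map_mul, prj_of_D' hx.2.2])
      (fun x hx u hu => by
        rw [Submodule.mem_comap] at hu ⊢
        change cf V (x u) ∈ U
        rw [← mm_mulVec]
        refine hU2 _ ⟨mem_mG.2 (le_ads hx.1), ?_, ?_⟩ _ hu
        · rw [← map_mul, prj_of_D hx.2.1]
        · have h3 := prj_of_D' hx.2.2
          rw [neg_neg] at h3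
          rw [← map_mul, h3]) with h1 | h1
    · left
      rw [Submodule.eq_bot_iff] at h1 ⊢
      intro u hu
      have h2 := h1 ((cf V).symm u) (by
        rw [Submodule.mem_comap]
        change cf V ((cf V).symm u) ∈ U
        rwa [LinearEquiv.apply_symm_apply])
      rw [← (cf V).apply_symm_apply u, h2, map_zero]
    · right
      intro u _
      have h2 : (cf V).symm u ∈ U.comap (cf V).toLinearMap := by rw [h1]; trivial
      rw [Submodule.mem_comap] at h2
      change cf V ((cf V).symm u) ∈ U at h2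
      rwa [LinearEquiv.apply_symm_apply] at h2
  obtain ⟨e, f, p, q, k⟩ := exists_trp H ha hb
  obtain ⟨m, c, hm, hm1, -, -, -⟩ := k.rel H
  have hm2 := k.two_le hNR hm hm1
  by_cases h0 : ∀ x ∈ pos (mG (ads 𝔤)) (mm V (prj D)) (mm V (prj (-D))),
      (mm V (prj D) - p) * x * (mm V (prj (-D)) - q) = 0
  · obtain ⟨d, s, t, hst, h1, h2⟩ := binom H k h0 hI
    have ha2 : 2 ≤ a := by
      have h3 := trace_idemM (k.idP H.PP)
      rw [trace_sub, H.trP, hm] at h3
      have h4 : (a : ℂ) = ((finrank ℂ (LinearMap.range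
          (mulVecLin (mm V (prj D) - p))) + m : ℕ) : ℂ) := by
        push_cast
        rw [← h3]
        ring
      have h5 := Nat.cast_injective h4
      omega
    have hb2 : 2 ≤ b := by
      have h3 := trace_idemM (k.idQ H.QQ)
      rw [trace_sub, H.trQ, k.trpq, hm] at h3
      have h4 : (b : ℂ) = ((finrank ℂ (LinearMap.range
          (mulVecLin (mm V (prj (-D)) - q))) + m : ℕ) : ℂ) := by
        push_cast
        rw [← h3]
        ring
      have h5 := Nat.cast_injective h4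
      omega
    have ht1 : 1 ≤ t := by
      by_contra ht
      obtain rfl : t = 0 := by omega
      rw [Nat.choose_zero_right] at h1
      omega
    have hs1 : 1 ≤ s := by
      by_contra ht
      obtain rfl : s = 0 := by omega
      rw [Nat.choose_zero_right] at h2
      omega
    have hsd : s ≠ d := by
      rintro rfl
      rw [Nat.choose_self] at h2
      omega
    have htd : t ≠ d := by
      rintro rfl
      rw [Nat.choose_self] at h1
      omega
    refine hnb d s (by omega) (by omega) ⟨?_, h2⟩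
    rw [h1]
    exact (Nat.choose_symm_of_eq_add (by omega))
  · push Not at h0
    obtain ⟨x, hx, hx0⟩ := h0
    have h1 := trace_one_of_two H hR hnd hI hab k hx hx0
    rw [hm] at h1
    have h2 : m = 1 := by exact_mod_cast h1
    omega

end

end Pool.Agent.K9h17.L
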